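import Pool.Agent.H12.FP.Mk

/-!
# The wheel family

A cycle `v i` (`i : ZMod k`), and on each of its two sides a centre `w b` (`b : Bool`) which is joined
to all `v i`; moreover on each side the edges `v (i-1) v (i+1)`, which cross the edge `w b v i` and the
two neighbouring edges of the same kind.
-/

set_option autoImplicit false

namespace Pool.Agent.H12.FP

open Pool.Agent.Q238.FP

/-- the kinds of edges -/
inductive K where
  | side : K
  | spoke : Bool → K
  | hop : Bool → K
  deriving DecidableEq, Fintype

variable {k : ℕ}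

/-- the number of crossing points on an edge -/
def len (e : ZMod k × K) : ℕ :=
  match e.2 with
  | .side => 0
  | .spoke _ => 1
  | .hop _ => 3

/-- the ends -/
def vert (x : (ZMod k × K) × Bool) : ZMod k ⊕ Bool :=
  match x with
  | ((i, .side), false) => .inl i
  | ((i, .side), true) => .inl (i + 1)
  | ((_, .spoke b), false) => .inr b
  | ((i, .spoke _), true) => .inl i
  | ((i, .hop _), false) => .inl (i - 1)
  | ((i, .hop _), true) => .inl (i + 1)

/-- the crossing points -/
def cr (x : Σ e : ZMod k × K, Fin (len e)) : Σ e : ZMod k × K, Fin (len e) :=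
  match x with
  | ⟨(_, .side), j⟩ => j.elim0
  | ⟨(i, .spoke b), _⟩ => ⟨(i, .hop b), (1 : Fin 3)⟩
  | ⟨(i, .hop b), ⟨0, _⟩⟩ => ⟨(i - 1, .hop b), (2 : Fin 3)⟩
  | ⟨(i, .hop b), ⟨1, _⟩⟩ => ⟨(i, .spoke b), (0 : Fin 1)⟩
  | ⟨(i, .hop b), ⟨_ + 2, _⟩⟩ => ⟨(i + 1, .hop b), (0 : Fin 3)⟩

/-- the sides of the crossings -/
def toLeft (x : Σ e : ZMod k × K, Fin (len e)) : Bool :=
  match x with
  | ⟨(_, .side), j⟩ => j.elim0
  | ⟨(_, .spoke b), _⟩ => b
  | ⟨(_, .hop b), ⟨0, _⟩⟩ => !b
  | ⟨(_, .hop b), ⟨1, _⟩⟩ => !b
  | ⟨(_, .hop b), ⟨_ + 2, _⟩⟩ => b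

/-- the rotation -/
def rotF (x : (ZMod k × K) × Bool) : (ZMod k × K) × Bool :=
  match x with
  | ((i, .side), false) => ((i + 1, .hop false), false)
  | ((i, .hop false), false) => ((i - 1, .spoke false), true)
  | ((i, .spoke false), true) => ((i - 1, .hop false), true)
  | ((i, .hop false), true) => ((i, .side), true)
  | ((i, .side), true) => ((i, .hop true), true)
  | ((i, .hop true), true) => ((i + 1, .spoke true), true)
  | ((i, .spoke true), true) => ((i + 1, .hop true), false)
  | ((i, .hop true), false) => ((i - 1, .side), false)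
  | ((i, .spoke true), false) => ((i - 1, .spoke true), false)
  | ((i, .spoke false), false) => ((i + 1, .spoke false), false)

/-- the inverse rotation -/
def rotI (x : (ZMod k × K) × Bool) : (ZMod k × K) × Bool :=
  match x with
  | ((i, .hop false), false) => ((i - 1, .side), false)
  | ((i, .spoke false), true) => ((i + 1, .hop false), false)
  | ((i, .hop false), true) => ((i + 1, .spoke false), true)
  | ((i, .side), true) => ((i, .hop false), true)
  | ((i, .hop true), true) => ((i, .side), true)
  | ((i, .spoke true), true) => ((i - 1, .hop true), true)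
  | ((i, .hop true), false) => ((i - 1, .spoke true), true)
  | ((i, .side), false) => ((i + 1, .hop true), false)
  | ((i, .spoke true), false) => ((i + 1, .spoke true), false)
  | ((i, .spoke false), false) => ((i - 1, .spoke false), false)

/-- the rotation -/
def rot (k : ℕ) : Equiv.Perm ((ZMod k × K) × Bool) where
  toFun := rotF
  invFun := rotI
  left_inv := by
    rintro ⟨⟨i, (_ | (_ | _) | (_ | _))⟩, (_ | _)⟩ <;> simp [rotF, rotI]
  right_inv := by
    rintro ⟨⟨i, (_ | (_ | _) | (_ | _))⟩, (_ | _)⟩ <;> simp [rotF, rotI]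

theorem rot_apply (x : (ZMod k × K) × Bool) : rot k x = rotF x := rfl

theorem vert_rot (x : (ZMod k × K) × Bool) : vert (rotF x) = vert x := by
  obtain ⟨⟨i, (_ | (_ | _) | (_ | _))⟩, (_ | _)⟩ := x <;> simp [rotF, vert]

/-- the canonical edge end at a vertex -/
def can : ZMod k ⊕ Bool → (ZMod k × K) × Bool
  | .inl i => ((i, .side), false)
  | .inr b => ((0, .spoke b), false)

theorem sc_step (x : (ZMod k × K) × Bool) : (rot k).SameCycle x (rotF x) := ⟨1, by simp [rot_apply]⟩

theorem sc_spoke (b : Bool) (n : ℕ) :
    (rot k).SameCycle (((0 : ZMod k), K.spoke b), false) ((((if b then -(n : ZMod k) else n)), K.spoke b), false) := by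
  induction n with
  | zero => cases b <;> simp [Equiv.Perm.SameCycle.refl]
  | succ n ih =>
    refine ih.trans ?_
    cases b
    · have h := sc_step (((n : ZMod k), K.spoke false), false)
      simpa [rotF] using h
    · have h := sc_step (((-(n : ZMod k)), K.spoke true), false)
      simp only [rotF] at h
      have e : (-(n : ZMod k) - 1) = -((n + 1 : ℕ) : ZMod k) := by push_cast; ring
      rw [e] at h
      simpa using h

theorem sc_can [NeZero k] (x : (ZMod k × K) × Bool) : (rot k).SameCycle (can (vert x)) x := by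
  have spoke : ∀ (b : Bool) (i : ZMod k),
      (rot k).SameCycle (((0 : ZMod k), K.spoke b), false) ((i, K.spoke b), false) := by
    intro b i
    cases b
    · have h := sc_spoke (k := k) false i.val
      simpa using h
    · have h := sc_spoke (k := k) true (-i).val
      simpa using h
  -- around `v i`
  have s0 : ∀ i : ZMod k, (rot k).SameCycle ((i, K.side), false) ((i + 1, K.hop false), false) :=
    fun i => sc_step _
  have s1 : ∀ i : ZMod k, (rot k).SameCycle ((i, K.side), false) ((i, K.spoke false), true) :=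
    fun i => (s0 i).trans (by
      have h := sc_step ((i + 1, K.hop false), false)
      simp only [rotF, add_sub_cancel_right] at h
      exact h)
  have s2 : ∀ i : ZMod k, (rot k).SameCycle ((i, K.side), false) ((i - 1, K.hop false), true) :=
    fun i => (s1 i).trans (by simpa [rotF] using sc_step ((i, K.spoke false), true))
  have s3 : ∀ i : ZMod k, (rot k).SameCycle ((i, K.side), false) ((i - 1, K.side), true) :=
    fun i => (s2 i).trans (by simpa [rotF] using sc_step ((i - 1, K.hop false), true))
  have s4 : ∀ i : ZMod k, (rot k).SameCycle ((i, K.side), false) ((i - 1, K.hop true), true) :=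
    fun i => (s3 i).trans (by simpa [rotF] using sc_step ((i - 1, K.side), true))
  have s5 : ∀ i : ZMod k, (rot k).SameCycle ((i, K.side), false) ((i, K.spoke true), true) :=
    fun i => (s4 i).trans (by
      have h := sc_step ((i - 1, K.hop true), true)
      simp only [rotF, sub_add_cancel] at h
      exact h)
  have s6 : ∀ i : ZMod k, (rot k).SameCycle ((i, K.side), false) ((i + 1, K.hop true), false) :=
    fun i => (s5 i).trans (by simpa [rotF] using sc_step ((i, K.spoke true), true))
  obtain ⟨⟨i, (_ | (_ | _) | (_ | _))⟩, (_ | _)⟩ := x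
  · exact Equiv.Perm.SameCycle.refl _ _
  · simpa [can, vert] using s3 (i + 1)
  · exact spoke false i
  · exact s1 i
  · exact spoke true i
  · exact s5 i
  · simpa [can, vert] using s0 (i - 1)
  · simpa [can, vert] using s2 (i + 1)
  · simpa [can, vert] using s6 (i - 1)
  · simpa [can, vert] using s4 (i + 1)

theorem sc_vert (x y : (ZMod k × K) × Bool) (h : (rot k).SameCycle x y) : vert x = vert y := by
  obtain ⟨n, rfl⟩ := h
  have h1 : ∀ x, vert ((rot k) x) = vert x := vert_rot
  have h2 : ∀ x, vert ((rot k)⁻¹ x) = vert x := by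
    intro x
    have := h1 ((rot k)⁻¹ x)
    rw [← Equiv.Perm.mul_apply, mul_inv_cancel, Equiv.Perm.one_apply] at this
    exact this.symm
  have h3 : ∀ (m : ℕ) x, vert (((rot k) ^ m) x) = vert x := by
    intro m
    induction m with
    | zero => intro x; rfl
    | succ m ih => intro x; rw [pow_succ, Equiv.Perm.mul_apply, ih, h1]
  have h4 : ∀ (m : ℕ) x, vert ((((rot k)⁻¹) ^ m) x) = vert x := by
    intro m
    induction m with
    | zero => intro x; rfl
    | succ m ih => intro x; rw [pow_succ, Equiv.Perm.mul_apply, ih, h2]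
  cases n with
  | ofNat m => exact (h3 m x).symm
  | negSucc m =>
    rw [zpow_negSucc, ← inv_pow]
    exact (h4 (m + 1) x).symm

/-- the data of the drawing -/
def D (k : ℕ) [NeZero k] : Data (ZMod k ⊕ Bool) (ZMod k × K) where
  vert := vert
  len := len
  cr := cr
  toLeft := toLeft
  rot := rot k
  cr_cr := by
    rintro ⟨⟨i, (_ | b | b)⟩, j⟩
    · exact j.elim0
    · match j with
      | ⟨0, _⟩ => rfl
    · match j with
      | ⟨0, _⟩ => exact congrArg (fun i => (⟨(i, .hop b), (0 : Fin 3)⟩ : Σ e, Fin (len e))) (sub_add_cancel i 1)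
      | ⟨1, _⟩ => rfl
      | ⟨2, _⟩ => exact congrArg (fun i => (⟨(i, .hop b), (2 : Fin 3)⟩ : Σ e, Fin (len e))) (add_sub_cancel_right i 1)
  toLeft_cr := by
    rintro ⟨⟨i, (_ | b | b)⟩, j⟩
    · exact j.elim0
    · rfl
    · match j with
      | ⟨0, _⟩ => cases b <;> rfl
      | ⟨1, _⟩ => cases b <;> rfl
      | ⟨2, _⟩ => cases b <;> rfl
  rot_vert := fun x y => ⟨sc_vert x y, fun h => by
    have h1 := sc_can x
    have h2 := sc_can y
    rw [h] at h1
    exact h1.symm.trans h2⟩

end Pool.Agent.H12.FP
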