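import Pool.Agent.H12.FP.Fam

/-!
# The faces of the drawings of the wheel family
-/

set_option autoImplicit false

namespace Pool.Agent.H12.FP

open Pool.Agent.Q238.FP

variable {k : ℕ} [NeZero k]

/-- the face on the left of a dart -/
def face (d : (Σ e : ZMod k × K, Fin (len e + 1)) × Bool) : ZMod k × Bool × Fin 4 :=
  match d with
  | (⟨(i, .side), _⟩, dir) => (i, dir, 0)
  | (⟨(i, .spoke b), ⟨0, _⟩⟩, dir) => (if dir = b then i else i - 1, b, 3)
  | (⟨(i, .spoke b), ⟨_ + 1, _⟩⟩, dir) => (i, b, if dir = b then 1 else 2)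
  | (⟨(i, .hop b), ⟨0, _⟩⟩, dir) => (i - 1, b, if dir = b then 1 else 0)
  | (⟨(i, .hop b), ⟨1, _⟩⟩, dir) => if dir = b then (i - 1, b, 3) else (i, b, 2)
  | (⟨(i, .hop b), ⟨2, _⟩⟩, dir) => (i, b, if dir = b then 3 else 1)
  | (⟨(i, .hop b), ⟨_ + 3, _⟩⟩, dir) => if dir = b then (i + 1, b, 2) else (i, b, 0)

/-- a dart on the boundary of a face -/
def rep (f : ZMod k × Bool × Fin 4) : (Σ e : ZMod k × K, Fin (len e + 1)) × Bool :=
  match f with
  | (i, b, ⟨0, _⟩) => (⟨(i, .side), (0 : Fin 1)⟩, b)
  | (i, b, ⟨1, _⟩) => (⟨(i, .spoke b), (1 : Fin 2)⟩, b)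
  | (i, b, ⟨2, _⟩) => (⟨(i, .spoke b), (1 : Fin 2)⟩, !b)
  | (i, b, ⟨_ + 3, _⟩) => (⟨(i, .spoke b), (0 : Fin 2)⟩, b)

/-- the dart of a side -/
abbrev dS (i : ZMod k) (c : Bool) : (D k).Dart := (⟨(i, .side), (0 : Fin 1)⟩, c)
/-- the darts of a spoke -/
abbrev dP (i : ZMod k) (b : Bool) (j : Fin 2) (c : Bool) : (D k).Dart := (⟨(i, .spoke b), j⟩, c)
/-- the darts of a hop -/
abbrev dH (i : ZMod k) (b : Bool) (j : Fin 4) (c : Bool) : (D k).Dart := (⟨(i, .hop b), j⟩, c)

theorem nS1 (i : ZMod k) : (D k).next (dS i true) = dH i true 3 false := rfl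
theorem nS0 (i : ZMod k) : (D k).next (dS i false) = dH (i + 1) false 0 true := rfl

theorem nPt0 (i : ZMod k) : (D k).next (dP i true 0 true) = dH i true 2 true := rfl
theorem nPt1 (i : ZMod k) : (D k).next (dP i true 1 true) = dH (i + 1) true 0 true := rfl
theorem nPt1' (i : ZMod k) : (D k).next (dP i true 1 false) = dH i true 1 false := rfl
theorem nPt0' (i : ZMod k) : (D k).next (dP i true 0 false) = dP (i - 1) true 0 true := rfl

theorem nPf0 (i : ZMod k) : (D k).next (dP i false 0 true) = dH i false 1 false := rfl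
theorem nPf1 (i : ZMod k) : (D k).next (dP i false 1 true) = dH (i - 1) false 3 false := rfl
theorem nPf1' (i : ZMod k) : (D k).next (dP i false 1 false) = dH i false 2 true := rfl
theorem nPf0' (i : ZMod k) : (D k).next (dP i false 0 false) = dP (i + 1) false 0 true := rfl

theorem nHt0 (i : ZMod k) : (D k).next (dH i true 0 true) = dH (i - 1) true 2 false := rfl
theorem nHt1 (i : ZMod k) : (D k).next (dH i true 1 true) = dP i true 0 false := rfl
theorem nHt2 (i : ZMod k) : (D k).next (dH i true 2 true) = dH (i + 1) true 1 true := rfl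
theorem nHt3 (i : ZMod k) : (D k).next (dH i true 3 true) = dP (i + 1) true 1 false := rfl
theorem nHt3' (i : ZMod k) : (D k).next (dH i true 3 false) = dH (i + 1) true 0 false := rfl
theorem nHt2' (i : ZMod k) : (D k).next (dH i true 2 false) = dP i true 1 true := rfl
theorem nHt1' (i : ZMod k) : (D k).next (dH i true 1 false) = dH (i - 1) true 3 true := rfl
theorem nHt0' (i : ZMod k) : (D k).next (dH i true 0 false) = dS (i - 1) true := rfl

theorem nHf0 (i : ZMod k) : (D k).next (dH i false 0 true) = dH (i - 1) false 3 true := rfl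
theorem nHf1 (i : ZMod k) : (D k).next (dH i false 1 true) = dP i false 1 true := rfl
theorem nHf2 (i : ZMod k) : (D k).next (dH i false 2 true) = dH (i + 1) false 0 false := rfl
theorem nHf3 (i : ZMod k) : (D k).next (dH i false 3 true) = dS i false := rfl
theorem nHf3' (i : ZMod k) : (D k).next (dH i false 3 false) = dH (i + 1) false 1 true := rfl
theorem nHf2' (i : ZMod k) : (D k).next (dH i false 2 false) = dP i false 0 false := rfl
theorem nHf1' (i : ZMod k) : (D k).next (dH i false 1 false) = dH (i - 1) false 2 false := rfl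
theorem nHf0' (i : ZMod k) : (D k).next (dH i false 0 false) = dP (i - 1) false 1 false := rfl

theorem dall (P : (D k).Dart → Prop) (hS : ∀ i c, P (dS i c)) (hP : ∀ i b j c, P (dP i b j c))
    (hH : ∀ i b j c, P (dH i b j c)) : ∀ d, P d := by
  rintro ⟨⟨⟨i, (_ | b | b)⟩, j⟩, c⟩
  · match j with
    | ⟨0, _⟩ => exact hS i c
  · exact hP i b j c
  · exact hH i b j c

theorem face_next (d : (D k).Dart) : face ((D k).next d) = face d := by
  revert d
  apply dall
  · intro i c
    cases c
    · rw [nS0]; simp [face]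
    · rw [nS1]; simp [face]
  · intro i b j c
    match j with
    | ⟨0, _⟩ =>
      cases b <;> cases c
      · refine (congrArg face (nPf0' i)).trans ?_; simp [face]
      · refine (congrArg face (nPf0 i)).trans ?_; simp [face]
      · refine (congrArg face (nPt0' i)).trans ?_; simp [face]
      · refine (congrArg face (nPt0 i)).trans ?_; simp [face]
    | ⟨1, _⟩ =>
      cases b <;> cases c
      · refine (congrArg face (nPf1' i)).trans ?_; simp [face]
      · refine (congrArg face (nPf1 i)).trans ?_; simp [face]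
      · refine (congrArg face (nPt1' i)).trans ?_; simp [face]
      · refine (congrArg face (nPt1 i)).trans ?_; simp [face]
  · intro i b j c
    match j with
    | ⟨0, _⟩ =>
      cases b <;> cases c
      · refine (congrArg face (nHf0' i)).trans ?_; simp [face]
      · refine (congrArg face (nHf0 i)).trans ?_; simp [face]
      · refine (congrArg face (nHt0' i)).trans ?_; simp [face]
      · refine (congrArg face (nHt0 i)).trans ?_; simp [face]
    | ⟨1, _⟩ =>
      cases b <;> cases c
      · refine (congrArg face (nHf1' i)).trans ?_; simp [face]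
      · refine (congrArg face (nHf1 i)).trans ?_; simp [face]
      · refine (congrArg face (nHt1' i)).trans ?_; simp [face]
      · refine (congrArg face (nHt1 i)).trans ?_; simp [face]
    | ⟨2, _⟩ =>
      cases b <;> cases c
      · refine (congrArg face (nHf2' i)).trans ?_; simp [face]
      · refine (congrArg face (nHf2 i)).trans ?_; simp [face]
      · refine (congrArg face (nHt2' i)).trans ?_; simp [face]
      · refine (congrArg face (nHt2 i)).trans ?_; simp [face]
    | ⟨3, _⟩ =>
      cases b <;> cases c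
      · refine (congrArg face (nHf3' i)).trans ?_; simp [face]
      · refine (congrArg face (nHf3 i)).trans ?_; simp [face]
      · refine (congrArg face (nHt3' i)).trans ?_; simp [face]
      · refine (congrArg face (nHt3 i)).trans ?_; simp [face]

omit [NeZero k] in
theorem face_rep (f : ZMod k × Bool × Fin 4) : face (rep f) = f := by
  obtain ⟨i, b, j⟩ := f
  match j with
  | ⟨0, _⟩ => rfl
  | ⟨1, _⟩ => simp [rep, face]
  | ⟨2, _⟩ => cases b <;> simp [rep, face]
  | ⟨3, _⟩ => simp [rep, face]

/-- equality of walks -/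
theorem wn {d d' : (D k).Dart} (h : (D k).next d = d') : wq (D k) d' = wq (D k) d := by
  rw [← h, wq_next]

theorem rep_face (d : (D k).Dart) : wq (D k) (rep (face d)) = wq (D k) d := by
  revert d
  -- side `true`
  have A0 : ∀ i : ZMod k, wq (D k) (dH i true 3 false) = wq (D k) (dS i true) := fun i => wn (nS1 i)
  have A1 : ∀ i : ZMod k, wq (D k) (dH i true 0 false) = wq (D k) (dS (i - 1) true) :=
    fun i => (wn (nHt0' i)).symm
  -- triangle 1, side `true`
  have B0 : ∀ i : ZMod k, wq (D k) (dH (i + 1) true 0 true) = wq (D k) (dP i true 1 true) :=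
    fun i => wn (nPt1 i)
  have B1 : ∀ i : ZMod k, wq (D k) (dH i true 2 false) = wq (D k) (dP i true 1 true) :=
    fun i => (wn (nHt2' i)).symm
  -- triangle 2, side `true`
  have C0 : ∀ i : ZMod k, wq (D k) (dH i true 1 false) = wq (D k) (dP i true 1 false) :=
    fun i => wn (nPt1' i)
  have C1 : ∀ i : ZMod k, wq (D k) (dH i true 3 true) = wq (D k) (dP (i + 1) true 1 false) :=
    fun i => (wn (nHt3 i)).symm
  -- quadrilateral, side `true`
  have E0 : ∀ i : ZMod k, wq (D k) (dH i true 2 true) = wq (D k) (dP i true 0 true) :=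
    fun i => wn (nPt0 i)
  have E1 : ∀ i : ZMod k, wq (D k) (dH (i + 1) true 1 true) = wq (D k) (dP i true 0 true) :=
    fun i => (wn (nHt2 i)).trans (E0 i)
  have E2 : ∀ i : ZMod k, wq (D k) (dP i true 0 false) = wq (D k) (dP (i - 1) true 0 true) :=
    fun i => (wn (nPt0' i)).symm
  -- side `false`
  have a0 : ∀ i : ZMod k, wq (D k) (dH (i + 1) false 0 true) = wq (D k) (dS i false) :=
    fun i => wn (nS0 i)
  have a1 : ∀ i : ZMod k, wq (D k) (dH i false 3 true) = wq (D k) (dS i false) :=
    fun i => (wn (nHf3 i)).symm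
  have b0 : ∀ i : ZMod k, wq (D k) (dH i false 2 true) = wq (D k) (dP i false 1 false) :=
    fun i => wn (nPf1' i)
  have b1 : ∀ i : ZMod k, wq (D k) (dH i false 0 false) = wq (D k) (dP (i - 1) false 1 false) :=
    fun i => (wn (nHf0' i)).symm
  have c0 : ∀ i : ZMod k, wq (D k) (dH (i - 1) false 3 false) = wq (D k) (dP i false 1 true) :=
    fun i => wn (nPf1 i)
  have c1 : ∀ i : ZMod k, wq (D k) (dH i false 1 true) = wq (D k) (dP i false 1 true) :=
    fun i => (wn (nHf1 i)).symm
  have e0 : ∀ i : ZMod k, wq (D k) (dH i false 1 false) = wq (D k) (dP i false 0 true) :=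
    fun i => wn (nPf0 i)
  have e1 : ∀ i : ZMod k, wq (D k) (dH (i - 1) false 2 false) = wq (D k) (dP i false 0 true) :=
    fun i => (wn (nHf1' i)).trans (e0 i)
  have e2 : ∀ i : ZMod k, wq (D k) (dP i false 0 false) = wq (D k) (dP (i + 1) false 0 true) :=
    fun i => (wn (nPf0' i)).symm
  apply dall
  · intro i c
    cases c <;> rfl
  · intro i b j c
    match j with
    | ⟨0, _⟩ =>
      cases b <;> cases c
      · rfl
      · have h := e2 (i - 1)
        rw [sub_add_cancel] at h
        exact h
      · exact (E2 i).symm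
      · rfl
    | ⟨1, _⟩ => cases b <;> cases c <;> rfl
  · intro i b j c
    match j with
    | ⟨0, _⟩ =>
      cases b <;> cases c
      · exact (b1 i).symm
      · have h := (a0 (i - 1)).symm
        rw [sub_add_cancel] at h
        exact h
      · exact (A1 i).symm
      · have h := (B0 (i - 1)).symm
        rw [sub_add_cancel] at h
        exact h
    | ⟨1, _⟩ =>
      cases b <;> cases c
      · have h := e2 (i - 1)
        rw [sub_add_cancel] at h
        exact h.trans (e0 i).symm
      · exact (c1 i).symm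
      · exact (C0 i).symm
      · have h := (E1 (i - 1)).symm
        rw [sub_add_cancel] at h
        exact h
    | ⟨2, _⟩ =>
      cases b <;> cases c
      · have h := e1 (i + 1)
        rw [add_sub_cancel_right] at h
        exact (e2 i).trans h.symm
      · exact (b0 i).symm
      · exact (B1 i).symm
      · exact (E0 i).symm
    | ⟨3, _⟩ =>
      cases b <;> cases c
      · have h := (c0 (i + 1)).symm
        rw [add_sub_cancel_right] at h
        exact h
      · exact (a1 i).symm
      · exact (A0 i).symm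
      · exact (C1 i).symm

omit [NeZero k] in
/-- induction along the cycle -/
theorem cyc_ind [NeZero k] (P : ZMod k → Prop) (h0 : P 0) (h : ∀ i, P i → P (i + 1)) : ∀ i, P i := by
  have h1 : ∀ n : ℕ, P (n : ZMod k) := by
    intro n
    induction n with
    | zero => simpa using h0
    | succ n ih => simpa using h _ ih
  intro i
  simpa using h1 i.val

theorem conn (A : Set (ZMod k × Bool × Fin 4))
    (hA : ∀ d : (D k).Dart, face d ∈ A ↔ face ((D k).rev d) ∈ A) : A = ∅ ∨ A = Set.univ := by
  have a1 : ∀ i : ZMod k, ((i, false, 0) ∈ A ↔ (i, true, 0) ∈ A) := fun i => hA (dS i false)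
  have a2 : ∀ (i : ZMod k) (b : Bool), ((i, b, 1) ∈ A ↔ (i, b, 2) ∈ A) := by
    intro i b
    have := hA (dP i b 1 b)
    cases b <;> exact this
  have a3 : ∀ (i : ZMod k) (b : Bool), ((i, b, 3) ∈ A ↔ (i - 1, b, 3) ∈ A) := by
    intro i b
    have := hA (dP i b 0 b)
    cases b <;> exact this
  have a4 : ∀ (i : ZMod k) (b : Bool), ((i, b, 3) ∈ A ↔ (i, b, 1) ∈ A) := by
    intro i b
    have := hA (dH i b 2 b)
    cases b <;> exact this
  have a5 : ∀ (i : ZMod k) (b : Bool), ((i - 1, b, 1) ∈ A ↔ (i - 1, b, 0) ∈ A) := by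
    intro i b
    have := hA (dH i b 0 b)
    cases b <;> exact this
  have a5' : ∀ (i : ZMod k) (b : Bool), ((i, b, 1) ∈ A ↔ (i, b, 0) ∈ A) := by
    intro i b
    have := a5 (i + 1) b
    rwa [add_sub_cancel_right] at this
  have b3 : ∀ (b : Bool) (i : ZMod k), ((i, b, 3) ∈ A ↔ (0, b, 3) ∈ A) := by
    intro b
    apply cyc_ind
    · rfl
    · intro i hi
      have := a3 (i + 1) b
      rw [add_sub_cancel_right] at this
      exact this.trans hi
  have b3' : ∀ (b : Bool), (((0 : ZMod k), b, (3 : Fin 4)) ∈ A ↔ (0, true, 3) ∈ A) := by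
    intro b
    cases b
    · rw [a4, a5', a1, ← a5', ← a4]
    · rfl
  have key : ∀ f : ZMod k × Bool × Fin 4, f ∈ A ↔ (0, true, 3) ∈ A := by
    rintro ⟨i, b, j⟩
    rw [← b3' b, ← b3 b i]
    match j with
    | ⟨0, _⟩ => exact (a5' i b).symm.trans (a4 i b).symm
    | ⟨1, _⟩ => exact (a4 i b).symm
    | ⟨2, _⟩ => exact (a2 i b).symm.trans (a4 i b).symm
    | ⟨3, _⟩ => exact Iff.rfl
  by_cases h : ((0 : ZMod k), true, (3 : Fin 4)) ∈ A
  · right
    ext f
    simp [(key f).2 h]
  · left
    ext f
    simp [mt (key f).1 h]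

omit [NeZero k] in
theorem sum_K (f : K → ℕ) : ∑ κ : K, f κ =
    f .side + (f (.spoke true) + f (.spoke false)) + (f (.hop true) + f (.hop false)) := by
  have : (Finset.univ : Finset K) = {.side, .spoke true, .spoke false, .hop true, .hop false} := by
    decide
  rw [this]
  simp
  ring

theorem sum_len : ∑ e : ZMod k × K, len e = 8 * k := by
  rw [Fintype.sum_prod_type]
  have : ∀ i : ZMod k, ∑ κ : K, len (i, κ) = 8 := fun i => by rw [sum_K]; rfl
  simp only [this]
  simp [ZMod.card]
  ring

theorem sum_len1 : ∑ e : ZMod k × K, (len e + 1) = 13 * k := by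
  rw [Fintype.sum_prod_type]
  have : ∀ i : ZMod k, ∑ κ : K, (len (i, κ) + 1) = 13 := fun i => by
    rw [sum_K (fun κ => len (i, κ) + 1)]; rfl
  simp only [this]
  simp [ZMod.card]
  ring

/-- the face of a vertex -/
def loc (v : ZMod k ⊕ Bool) : ZMod k × Bool × Fin 4 :=
  match v with
  | .inl i => (i, true, 0)
  | .inr b => (if b then 0 else -1, b, 3)

/-- the drawing -/
def G (k : ℕ) [NeZero k] : Drawing (ZMod k ⊕ Bool) (ZMod k × K) (ZMod k × Bool × Fin 4) :=
  mk (D k) (dS 0 true) face loc face_next
    (by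
      intro x
      refine ⟨can (vert x), ?_, ?_⟩
      · show vert (can (vert x)) = vert x
        rcases vert x with i | b
        · rfl
        · rfl
      · show face ((D k).out (can (vert x))) = loc (vert x)
        rcases vert x with i | b
        · rfl
        · cases b
          · show ((0 : ZMod k) - 1, false, (3 : Fin 4)) = (-1, false, 3)
            rw [zero_sub]
          · rfl)
    rep face_rep rep_face conn
    (by
      rintro (i | b)
      · exact ⟨((i, .side), false), rfl⟩
      · exact ⟨((0, .spoke b), false), rfl⟩)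
    (by
      have h1 := sum_len (k := k)
      have h2 := sum_len1 (k := k)
      have h3 : ∑ e, (D k).len e = 8 * k := h1
      have h4 : ∑ e, ((D k).len e + 1) = 13 * k := h2
      rw [h3, h4]
      simp [ZMod.card]
      ring)

end Pool.Agent.H12.FP
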