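import Pool.Agent.H12.FP.Fam2

/-!
# The drawings of the wheel family are simple, fan-planar and without homotopic parallel edges
-/

set_option autoImplicit false

namespace Pool.Agent.H12.FP

open Pool.Agent.Q238.FP

variable {k : ℕ} [NeZero k]

omit [NeZero k] in
theorem cast_ne (m : ℕ) (h0 : 0 < m) (hk : m < k) : (m : ZMod k) ≠ 0 := by
  intro h
  rw [ZMod.natCast_eq_zero_iff] at h
  exact absurd (Nat.le_of_dvd h0 h) (by omega)

theorem loopless (hk : 4 ≤ k) : (G k).Loopless := by
  have h1 : (1 : ZMod k) ≠ 0 := by simpa using cast_ne (k := k) 1 (by omega) (by omega)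
  have h2 : (2 : ZMod k) ≠ 0 := by simpa using cast_ne (k := k) 2 (by omega) (by omega)
  rintro ⟨i, (_ | b | b)⟩
  · show (Sum.inl i : ZMod k ⊕ Bool) ≠ Sum.inl (i + 1)
    intro h
    have h := Sum.inl.inj h
    exact h1 (by linear_combination -h)
  · show (Sum.inr b : ZMod k ⊕ Bool) ≠ Sum.inl i
    intro h
    exact absurd h (by simp)
  · show (Sum.inl (i - 1) : ZMod k ⊕ Bool) ≠ Sum.inl (i + 1)
    intro h
    have h := Sum.inl.inj h
    exact h2 (by linear_combination -h)

theorem fanPlanar : (G k).FanPlanar := by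
  rintro ⟨i, (_ | b | b)⟩
  · left
    exact ⟨.inl 0, fun j => j.elim0⟩
  · left
    refine ⟨(D k).leftEnd ⟨(i, .spoke b), (0 : Fin 1)⟩, fun j => ?_⟩
    match j with
    | ⟨0, _⟩ => rfl
  · cases b
    · left
      refine ⟨.inl i, fun j => ?_⟩
      match j with
      | ⟨0, _⟩ => show (Sum.inl (i - 1 + 1) : ZMod k ⊕ Bool) = .inl i; rw [sub_add_cancel]
      | ⟨1, _⟩ => rfl
      | ⟨2, _⟩ => show (Sum.inl (i + 1 - 1) : ZMod k ⊕ Bool) = .inl i; rw [add_sub_cancel_right]
    · right
      refine ⟨.inl i, fun j => ?_⟩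
      match j with
      | ⟨0, _⟩ => show (Sum.inl (i - 1 + 1) : ZMod k ⊕ Bool) = .inl i; rw [sub_add_cancel]
      | ⟨1, _⟩ => rfl
      | ⟨2, _⟩ => show (Sum.inl (i + 1 - 1) : ZMod k ⊕ Bool) = .inl i; rw [add_sub_cancel_right]

theorem simple (hk : 4 ≤ k) : (G k).Simple := by
  have h1 : (1 : ZMod k) ≠ 0 := by simpa using cast_ne (k := k) 1 (by omega) (by omega)
  have h2 : (2 : ZMod k) ≠ 0 := by simpa using cast_ne (k := k) 2 (by omega) (by omega)
  have h3 : (3 : ZMod k) ≠ 0 := by simpa using cast_ne (k := k) 3 (by omega) (by omega)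
  constructor
  · rintro ⟨⟨i, (_ | b | b)⟩, j⟩ c c'
    · exact j.elim0
    · match j with
      | ⟨0, _⟩ =>
        cases c <;> cases c'
        · show (Sum.inr b : ZMod k ⊕ Bool) ≠ Sum.inl (i - 1)
          simp
        · show (Sum.inr b : ZMod k ⊕ Bool) ≠ Sum.inl (i + 1)
          simp
        · show (Sum.inl i : ZMod k ⊕ Bool) ≠ Sum.inl (i - 1)
          intro h
          have h := Sum.inl.inj h
          exact h1 (by linear_combination h)
        · show (Sum.inl i : ZMod k ⊕ Bool) ≠ Sum.inl (i + 1)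
          intro h
          have h := Sum.inl.inj h
          exact h1 (by linear_combination -h)
    · match j with
      | ⟨0, _⟩ =>
        cases c <;> cases c'
        · show (Sum.inl (i - 1) : ZMod k ⊕ Bool) ≠ Sum.inl (i - 1 - 1)
          intro h
          have h := Sum.inl.inj h
          exact h1 (by linear_combination h)
        · show (Sum.inl (i - 1) : ZMod k ⊕ Bool) ≠ Sum.inl (i - 1 + 1)
          intro h
          have h := Sum.inl.inj h
          exact h1 (by linear_combination -h)
        · show (Sum.inl (i + 1) : ZMod k ⊕ Bool) ≠ Sum.inl (i - 1 - 1)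
          intro h
          have h := Sum.inl.inj h
          exact h3 (by linear_combination h)
        · show (Sum.inl (i + 1) : ZMod k ⊕ Bool) ≠ Sum.inl (i - 1 + 1)
          intro h
          have h := Sum.inl.inj h
          exact h1 (by linear_combination h)
      | ⟨1, _⟩ =>
        cases c <;> cases c'
        · show (Sum.inl (i - 1) : ZMod k ⊕ Bool) ≠ Sum.inr b
          simp
        · show (Sum.inl (i - 1) : ZMod k ⊕ Bool) ≠ Sum.inl i
          intro h
          have h := Sum.inl.inj h
          exact h1 (by linear_combination -h)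
        · show (Sum.inl (i + 1) : ZMod k ⊕ Bool) ≠ Sum.inr b
          simp
        · show (Sum.inl (i + 1) : ZMod k ⊕ Bool) ≠ Sum.inl i
          intro h
          have h := Sum.inl.inj h
          exact h1 (by linear_combination h)
      | ⟨2, _⟩ =>
        cases c <;> cases c'
        · show (Sum.inl (i - 1) : ZMod k ⊕ Bool) ≠ Sum.inl (i + 1 - 1)
          intro h
          have h := Sum.inl.inj h
          exact h1 (by linear_combination -h)
        · show (Sum.inl (i - 1) : ZMod k ⊕ Bool) ≠ Sum.inl (i + 1 + 1)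
          intro h
          have h := Sum.inl.inj h
          exact h3 (by linear_combination -h)
        · show (Sum.inl (i + 1) : ZMod k ⊕ Bool) ≠ Sum.inl (i + 1 - 1)
          intro h
          have h := Sum.inl.inj h
          exact h1 (by linear_combination h)
        · show (Sum.inl (i + 1) : ZMod k ⊕ Bool) ≠ Sum.inl (i + 1 + 1)
          intro h
          have h := Sum.inl.inj h
          exact h1 (by linear_combination -h)
  · rintro ⟨⟨i, (_ | b | b)⟩, j⟩ ⟨⟨i', κ'⟩, j'⟩ h h'
    · exact j.elim0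
    · change (i, K.spoke b) = (i', κ') at h
      obtain ⟨rfl, rfl⟩ := Prod.mk.inj h
      match j, j' with
      | ⟨0, _⟩, ⟨0, _⟩ => rfl
    · change (i, K.hop b) = (i', κ') at h
      obtain ⟨rfl, rfl⟩ := Prod.mk.inj h
      have e02 : i - 1 ≠ i + 1 := fun h => h2 (by linear_combination -h)
      match j, j' with
      | ⟨0, _⟩, ⟨0, _⟩ => rfl
      | ⟨1, _⟩, ⟨1, _⟩ => rfl
      | ⟨2, _⟩, ⟨2, _⟩ => rfl
      | ⟨0, _⟩, ⟨1, _⟩ =>
        change (i - 1, K.hop b) = (i, K.spoke b) at h'
        simp at h'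
      | ⟨1, _⟩, ⟨0, _⟩ =>
        change (i, K.spoke b) = (i - 1, K.hop b) at h'
        simp at h'
      | ⟨0, _⟩, ⟨2, _⟩ =>
        change (i - 1, K.hop b) = (i + 1, K.hop b) at h'
        exact absurd (Prod.mk.inj h').1 e02
      | ⟨2, _⟩, ⟨0, _⟩ =>
        change (i + 1, K.hop b) = (i - 1, K.hop b) at h'
        exact absurd (Prod.mk.inj h').1.symm e02
      | ⟨1, _⟩, ⟨2, _⟩ =>
        change (i, K.spoke b) = (i + 1, K.hop b) at h'
        simp at h'
      | ⟨2, _⟩, ⟨1, _⟩ =>
        change (i + 1, K.hop b) = (i, K.spoke b) at h'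
        simp at h'

end Pool.Agent.H12.FP
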