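import Pool.Agent.H12.FP.Fam3

/-!
# Non-homotopic parallel edges in the wheel family
-/

set_option autoImplicit false

namespace Pool.Agent.H12.FP

open Pool.Agent.Q238.FP

variable {k : ℕ} [NeZero k]

/-- the faces between the hop `(i, hop b)` and the cycle -/
def uu (b : Bool) (i : ZMod k) (f : ZMod k × Bool × Fin 4) : Bool :=
  decide (f.2.1 = b ∧ ((f.2.2 = 0 ∧ (f.1 = i - 1 ∨ f.1 = i)) ∨ ((f.2.2 = 1 ∨ f.2.2 = 2) ∧ f.1 = i)))

/-- the faces on one side of the cycle -/
def ss (b : Bool) (f : ZMod k × Bool × Fin 4) : Bool := decide (f.2.1 = b)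

theorem change_s (b : Bool) (d : (D k).Dart) :
    (ss b (face d) = ss b (face ((D k).rev d))) ↔ d.1.1.2 ≠ K.side := by
  revert d
  apply dall
  · intro i c
    cases c <;> cases b <;> simp [ss, face, Data.rev]
  · intro i c j e
    match j with
    | ⟨0, _⟩ => cases b <;> cases c <;> cases e <;> simp [ss, face, Data.rev]
    | ⟨1, _⟩ => cases b <;> cases c <;> cases e <;> simp [ss, face, Data.rev]
  · intro i c j e
    match j with
    | ⟨0, _⟩ => cases b <;> cases c <;> cases e <;> simp [ss, face, Data.rev]
    | ⟨1, _⟩ => cases b <;> cases c <;> cases e <;> simp [ss, face, Data.rev]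
    | ⟨2, _⟩ => cases b <;> cases c <;> cases e <;> simp [ss, face, Data.rev]
    | ⟨3, _⟩ => cases b <;> cases c <;> cases e <;> simp [ss, face, Data.rev]

theorem change_u (h1 : (1 : ZMod k) ≠ 0) (b : Bool) (i : ZMod k) (d : (D k).Dart) :
    (uu b i (face d) = uu b i (face ((D k).rev d))) ↔
      ¬ (d.1.1 = (i, K.hop b) ∨ (d.1.1.2 = K.side ∧ (d.1.1.1 = i - 1 ∨ d.1.1.1 = i))) := by
  revert d
  have e1 : ∀ j : ZMod k, j - 1 = i - 1 ↔ j = i := fun j => sub_left_inj
  have e2 : ∀ j : ZMod k, j - 1 = i ↔ j = i + 1 := fun j => sub_eq_iff_eq_add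
  have e3 : ∀ j : ZMod k, j + 1 = i ↔ j = i - 1 := fun j => eq_sub_iff_add_eq.symm
  have e4 : i ≠ i + 1 := fun h => h1 (by linear_combination -h)
  have e5 : i ≠ i - 1 := fun h => h1 (by linear_combination h)
  apply dall
  · intro j c
    cases c <;> cases b <;> simp [uu, face, Data.rev]
  · intro j c m e
    match m with
    | ⟨0, _⟩ => cases b <;> cases c <;> cases e <;> simp [uu, face, Data.rev]
    | ⟨1, _⟩ => cases b <;> cases c <;> cases e <;> simp [uu, face, Data.rev]
  · intro j c m e
    match m with
    | ⟨0, _⟩ =>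
      cases b <;> cases c <;> cases e <;> simp [uu, face, Data.rev, e1, e2] <;>
        by_cases hj : j = i <;> simp [hj, e4]
    | ⟨1, _⟩ => cases b <;> cases c <;> cases e <;> simp [uu, face, Data.rev]
    | ⟨2, _⟩ => cases b <;> cases c <;> cases e <;> simp [uu, face, Data.rev]
    | ⟨3, _⟩ =>
      cases b <;> cases c <;> cases e <;> simp [uu, face, Data.rev, e3] <;>
        by_cases hj : j = i <;> simp [hj, e5]

/-- same centre vertex -/
theorem region1 (h1 : (1 : ZMod k) ≠ 0) (b b' : Bool) (hb : b ≠ b') (i : ZMod k) :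
    (G k).Region (i, K.hop b) (i, K.hop b') {f | (uu b i f ^^ uu b' i f) = true} := by
  intro d
  have hu := change_u h1 b i d
  have hu' := change_u h1 b' i d
  have hbb : (i, K.hop b) ≠ ((i, K.hop b') : ZMod k × K) := by simp [hb]
  change ((uu b i (face d) ^^ uu b' i (face d)) = true ↔
    (uu b i (face ((D k).rev d)) ^^ uu b' i (face ((D k).rev d))) = true) ↔ _
  by_cases hs : d.1.1.2 = K.side ∧ (d.1.1.1 = i - 1 ∨ d.1.1.1 = i)
  · have n1 : d.1.1 ≠ (i, K.hop b) := fun h => by rw [h] at hs; exact absurd hs.1 (by simp)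
    have n2 : d.1.1 ≠ (i, K.hop b') := fun h => by rw [h] at hs; exact absurd hs.1 (by simp)
    simp only [hs, n1, n2, false_or, or_true, not_true, iff_false, true_and] at hu hu'
    simp only [ne_eq, n1, n2, not_false_eq_true, and_self, iff_true]
    revert hu hu'
    cases uu b i (face d) <;> cases uu b i (face ((D k).rev d)) <;>
      cases uu b' i (face d) <;> cases uu b' i (face ((D k).rev d)) <;> simp
  · simp only [hs, or_false] at hu hu'
    by_cases n1 : d.1.1 = (i, K.hop b)
    · have n2 : d.1.1 ≠ (i, K.hop b') := by rw [n1]; exact hbb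
      simp only [n1, hbb, not_true, not_false_eq_true, iff_false, iff_true] at hu hu'
      simp only [n1, ne_eq, not_true, false_and, iff_false]
      revert hu hu'
      cases uu b i (face d) <;> cases uu b i (face ((D k).rev d)) <;>
        cases uu b' i (face d) <;> cases uu b' i (face ((D k).rev d)) <;> simp
    · by_cases n2 : d.1.1 = (i, K.hop b')
      · simp only [n2, hbb.symm, not_true, not_false_eq_true, iff_false, iff_true] at hu hu'
        simp only [n2, ne_eq, not_true, and_false, iff_false]
        revert hu hu'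
        cases uu b i (face d) <;> cases uu b i (face ((D k).rev d)) <;>
          cases uu b' i (face d) <;> cases uu b' i (face ((D k).rev d)) <;> simp
      · simp only [n1, n2, not_false_eq_true, iff_true] at hu hu'
        simp only [n1, n2, ne_eq, not_false_eq_true, and_self, iff_true, hu, hu']

theorem z4a : ∀ i : ZMod 4, i ≠ i + 2 := by decide

theorem z4b : ∀ i j : ZMod 4, (j = i - 1 ∨ j = i) ↔ ¬ (j = i + 2 - 1 ∨ j = i + 2) := by decide

/-- opposite centre vertices (`k = 4`) -/
theorem region2 (h4 : k = 4) (b b' : Bool) (i : ZMod k) :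
    (G k).Region (i, K.hop b) (i + 2, K.hop b')
      {f | (ss b f ^^ (uu b i f ^^ uu b' (i + 2) f)) = true} := by
  subst h4
  have h1 : (1 : ZMod 4) ≠ 0 := by decide
  intro d
  have hu := change_u h1 b i d
  have hu' := change_u h1 b' (i + 2) d
  have hs := change_s b d
  have h42 : i ≠ i + 2 := z4a i
  have hbb : (i, K.hop b) ≠ ((i + 2, K.hop b') : ZMod 4 × K) := fun h => h42 (Prod.mk.inj h).1
  change ((ss b (face d) ^^ (uu b i (face d) ^^ uu b' (i + 2) (face d))) = true ↔
    (ss b (face ((D 4).rev d)) ^^
      (uu b i (face ((D 4).rev d)) ^^ uu b' (i + 2) (face ((D 4).rev d)))) = true) ↔ _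
  by_cases hS : d.1.1.2 = K.side
  · have n1 : d.1.1 ≠ (i, K.hop b) := fun h => by rw [h] at hS; exact absurd hS (by simp)
    have n2 : d.1.1 ≠ (i + 2, K.hop b') := fun h => by rw [h] at hS; exact absurd hS (by simp)
    have hx : (d.1.1.1 = i - 1 ∨ d.1.1.1 = i) ↔ ¬ (d.1.1.1 = i + 2 - 1 ∨ d.1.1.1 = i + 2) :=
      z4b i _
    simp only [hS, n1, n2, false_or, true_and, hx, not_not, ne_eq, not_true, iff_false] at hu hu' hs
    simp only [ne_eq, n1, n2, not_false_eq_true, and_self, iff_true]
    by_cases hy : (d.1.1.1 = i + 2 - 1 ∨ d.1.1.1 = i + 2)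
    · simp only [hy, iff_true, not_true, iff_false] at hu hu'
      revert hu hu' hs
      cases ss b (face d) <;> cases ss b (face ((D 4).rev d)) <;>
        cases uu b i (face d) <;> cases uu b i (face ((D 4).rev d)) <;>
        cases uu b' (i + 2) (face d) <;> cases uu b' (i + 2) (face ((D 4).rev d)) <;> simp
    · simp only [hy, iff_false, not_false_eq_true, iff_true] at hu hu'
      revert hu hu' hs
      cases ss b (face d) <;> cases ss b (face ((D 4).rev d)) <;>
        cases uu b i (face d) <;> cases uu b i (face ((D 4).rev d)) <;>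
        cases uu b' (i + 2) (face d) <;> cases uu b' (i + 2) (face ((D 4).rev d)) <;> simp
  · simp only [hS, or_false, false_and, ne_eq, not_false_eq_true, iff_true] at hu hu' hs
    rw [hs]
    by_cases n1 : d.1.1 = (i, K.hop b)
    · simp only [n1, hbb, not_true, not_false_eq_true, iff_false, iff_true] at hu hu'
      simp only [n1, ne_eq, not_true, false_and, iff_false]
      revert hu hu'
      cases ss b (face ((D 4).rev d)) <;>
        cases uu b i (face d) <;> cases uu b i (face ((D 4).rev d)) <;>
        cases uu b' (i + 2) (face d) <;> cases uu b' (i + 2) (face ((D 4).rev d)) <;> simp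
    · by_cases n2 : d.1.1 = (i + 2, K.hop b')
      · simp only [n2, hbb.symm, not_true, not_false_eq_true, iff_false, iff_true] at hu hu'
        simp only [n2, ne_eq, not_true, and_false, iff_false]
        revert hu hu'
        cases ss b (face ((D 4).rev d)) <;>
          cases uu b i (face d) <;> cases uu b i (face ((D 4).rev d)) <;>
          cases uu b' (i + 2) (face d) <;> cases uu b' (i + 2) (face ((D 4).rev d)) <;> simp
      · simp only [n1, n2, not_false_eq_true, iff_true] at hu hu'
        simp only [n1, n2, ne_eq, not_false_eq_true, and_self, iff_true, hu, hu']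

theorem nonHomotopic (hk : 4 ≤ k) : (G k).NonHomotopic := by
  have h1 : (1 : ZMod k) ≠ 0 := by simpa using cast_ne (k := k) 1 (by omega) (by omega)
  have h2 : (2 : ZMod k) ≠ 0 := by simpa using cast_ne (k := k) 2 (by omega) (by omega)
  have h3 : (3 : ZMod k) ≠ 0 := by simpa using cast_ne (k := k) 3 (by omega) (by omega)
  have h4 : (4 : ZMod k) = 0 → k = 4 := by
    intro h
    have : ((4 : ℕ) : ZMod k) = 0 := by simpa using h
    rw [ZMod.natCast_eq_zero_iff] at this
    have := Nat.le_of_dvd (by omega) this
    omega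
  rintro ⟨i, κ⟩ ⟨j, κ'⟩ hne hpar
  change ({vert ((i, κ), false), vert ((i, κ), true)} : Set (ZMod k ⊕ Bool)) =
    {vert ((j, κ'), false), vert ((j, κ'), true)} at hpar
  rw [Set.pair_eq_pair_iff] at hpar
  rcases κ with _ | b | b <;> rcases κ' with _ | b' | b'
  · simp only [vert, Sum.inl.injEq] at hpar
    rcases hpar with ⟨h, -⟩ | ⟨h, h'⟩
    · subst h; exact absurd rfl hne
    · exact absurd (show (2 : ZMod k) = 0 by linear_combination h' - h) h2
  · simp only [vert, Sum.inl.injEq] at hpar
    rcases hpar with ⟨h, -⟩ | ⟨-, h⟩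
    · exact absurd h (by simp)
    · exact absurd h (by simp)
  · simp only [vert, Sum.inl.injEq] at hpar
    rcases hpar with ⟨h, h'⟩ | ⟨h, h'⟩
    · exact absurd (show (1 : ZMod k) = 0 by linear_combination h - h') h1
    · exact absurd (show (3 : ZMod k) = 0 by linear_combination h' - h) h3
  · simp only [vert, Sum.inl.injEq] at hpar
    rcases hpar with ⟨h, -⟩ | ⟨h, -⟩
    · exact absurd h (by simp)
    · exact absurd h (by simp)
  · simp only [vert, Sum.inl.injEq, Sum.inr.injEq] at hpar
    rcases hpar with ⟨h, h'⟩ | ⟨h, -⟩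
    · subst h; subst h'; exact absurd rfl hne
    · exact absurd h (by simp)
  · simp only [vert] at hpar
    rcases hpar with ⟨h, -⟩ | ⟨h, -⟩
    · exact absurd h (by simp)
    · exact absurd h (by simp)
  · simp only [vert, Sum.inl.injEq] at hpar
    rcases hpar with ⟨h, h'⟩ | ⟨h, h'⟩
    · exact absurd (show (1 : ZMod k) = 0 by linear_combination h' - h) h1
    · exact absurd (show (3 : ZMod k) = 0 by linear_combination h' - h) h3
  · simp only [vert] at hpar
    rcases hpar with ⟨h, -⟩ | ⟨-, h⟩
    · exact absurd h (by simp)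
    · exact absurd h (by simp)
  · simp only [vert, Sum.inl.injEq] at hpar
    rcases hpar with ⟨h, -⟩ | ⟨h, h'⟩
    · have hij : j = i := by linear_combination -h
      subst hij
      have hb : b ≠ b' := fun h => by subst h; exact hne rfl
      refine ⟨_, region1 h1 b b' hb j, ⟨.inl j, ?_, ?_, ?_⟩, ⟨.inr true, ?_, ?_, ?_⟩⟩
      · show (Sum.inl j : ZMod k ⊕ Bool) ≠ Sum.inl (j - 1)
        intro h
        have h := Sum.inl.inj h
        exact h1 (by linear_combination h)
      · show (Sum.inl j : ZMod k ⊕ Bool) ≠ Sum.inl (j + 1)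
        intro h
        have h := Sum.inl.inj h
        exact h1 (by linear_combination -h)
      · show (uu b j (j, true, 0) ^^ uu b' j (j, true, 0)) = true
        revert hb
        cases b <;> cases b' <;> simp [uu]
      · show (Sum.inr true : ZMod k ⊕ Bool) ≠ Sum.inl (j - 1)
        simp
      · show (Sum.inr true : ZMod k ⊕ Bool) ≠ Sum.inl (j + 1)
        simp
      · show ¬ (uu b j (0, true, 3) ^^ uu b' j (0, true, 3)) = true
        simp [uu]
    · have hij : j = i + 2 := by linear_combination -h'
      subst hij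
      have h44 : (4 : ZMod k) = 0 := by linear_combination -h
      have hk4 := h4 h44
      have hi2 : i ≠ i + 2 := fun h => h2 (by linear_combination -h)
      have hi1 : i ≠ i + 2 - 1 := fun h => h1 (by linear_combination -h)
      refine ⟨_, region2 hk4 b b' i, ⟨.inr b, ?_, ?_, ?_⟩, ?_⟩
      · show (Sum.inr b : ZMod k ⊕ Bool) ≠ Sum.inl (i - 1)
        simp
      · show (Sum.inr b : ZMod k ⊕ Bool) ≠ Sum.inl (i + 1)
        simp
      · show (ss b (loc (.inr b)) ^^ (uu b i (loc (.inr b)) ^^ uu b' (i + 2) (loc (.inr b)))) = true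
        cases b <;> cases b' <;> simp [uu, ss, loc]
      · by_cases hb : b = b'
        · subst hb
          refine ⟨.inl i, ?_, ?_, ?_⟩
          · show (Sum.inl i : ZMod k ⊕ Bool) ≠ Sum.inl (i - 1)
            intro h
            have h := Sum.inl.inj h
            exact h1 (by linear_combination h)
          · show (Sum.inl i : ZMod k ⊕ Bool) ≠ Sum.inl (i + 1)
            intro h
            have h := Sum.inl.inj h
            exact h1 (by linear_combination -h)
          · show ¬ (ss b (i, true, 0) ^^ (uu b i (i, true, 0) ^^ uu b (i + 2) (i, true, 0))) = true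
            cases b <;> simp [uu, ss, hi2, hi1]
        · refine ⟨.inr b', ?_, ?_, ?_⟩
          · show (Sum.inr b' : ZMod k ⊕ Bool) ≠ Sum.inl (i - 1)
            simp
          · show (Sum.inr b' : ZMod k ⊕ Bool) ≠ Sum.inl (i + 1)
            simp
          · show ¬ (ss b (loc (.inr b')) ^^
              (uu b i (loc (.inr b')) ^^ uu b' (i + 2) (loc (.inr b')))) = true
            revert hb
            cases b <;> cases b' <;> simp [uu, ss, loc]

end Pool.Agent.H12.FP
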