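import Pool.Graph.R_pool_sql_team_seeded_3997aac3.Q238.FP.Final

/-!
# Connected drawings from a table of faces
-/

set_option autoImplicit false

namespace Pool.Agent.H12.FP

open Pool.Agent.Q238.FP

/-- the walk of a dart -/
abbrev wq {V E : Type} (D : Data V E) (d : D.Dart) : D.Walk := Quot.mk _ d

theorem wq_next {V E : Type} (D : Data V E) (d : D.Dart) : wq D (D.next d) = wq D d :=
  (Quot.sound (r := fun d d' : D.Dart => D.next d = d') rfl).symm

/-- A connected drawing without isolated vertices is given by its faces. -/
def mk {V E F : Type} [Fintype V] [Fintype E] [Fintype F] (D : Data V E) (d₀ : D.Dart)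
    (face : D.Dart → F) (loc : V → F)
    (face_next : ∀ d, face (D.next d) = face d)
    (face_loc : ∀ x, ∃ y, D.vert y = D.vert x ∧ face (D.out y) = loc (D.vert x))
    (rep : F → D.Dart) (face_rep : ∀ f, face (rep f) = f)
    (rep_face : ∀ d, wq D (rep (face d)) = wq D d)
    (conn : ∀ A : Set F, (∀ d, face d ∈ A ↔ face (D.rev d) ∈ A) → A = ∅ ∨ A = Set.univ)
    (niso : ∀ v, ∃ x, D.vert x = v)
    (euler : 2 * Fintype.card V + (∑ e, D.len e) + 2 * Fintype.card F =
      2 * (∑ e, (D.len e + 1)) + 4) : Drawing V E F where
  toData := D
  face := face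
  loc := loc
  face_next := face_next
  face_loc := face_loc
  face_surj := fun f => Or.inl ⟨rep f, face_rep f⟩
  euler := by
    have hiso : Nat.card D.Iso = 0 := by
      have : IsEmpty D.Iso := ⟨fun v => by
        obtain ⟨x, hx⟩ := niso v.1
        exact v.2 x hx⟩
      exact Nat.card_of_isEmpty
    have hw : Nat.card D.Walk = Fintype.card F := by
      rw [← Nat.card_eq_fintype_card]
      refine Nat.card_congr ⟨Quot.lift face (fun a b (h : D.next a = b) => by rw [← h, face_next]),
        fun f => wq D (rep f), ?_, ?_⟩
      · intro w
        induction w using Quot.ind with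
        | mk d => exact rep_face d
      · intro f
        exact face_rep f
    have hc : Nat.card D.Comp = 1 := by
      rw [Nat.card_eq_one_iff_unique]
      refine ⟨⟨?_⟩, ⟨Quot.mk _ d₀⟩⟩
      have key : ∀ d d' : D.Dart, (Quot.mk _ d : D.Comp) = Quot.mk _ d' := by
        intro d d'
        have hr : ∀ d : D.Dart, (Quot.mk _ (rep (face d)) : D.Comp) = Quot.mk _ d := by
          intro d
          have h := rep_face d
          have : ∀ w w' : D.Walk, w = w' →
              Quot.lift (fun d => (Quot.mk _ d : D.Comp)) (fun a b h => Quot.sound (Or.inl h)) w =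
              Quot.lift (fun d => (Quot.mk _ d : D.Comp)) (fun a b h => Quot.sound (Or.inl h)) w' := by
            rintro w _ rfl; rfl
          exact this _ _ h
        have hA := conn {f | (Quot.mk _ (rep f) : D.Comp) = Quot.mk _ d'} (by
          intro e
          show (Quot.mk _ (rep (face e)) : D.Comp) = _ ↔ (Quot.mk _ (rep (face (D.rev e))) : D.Comp) = _
          rw [hr, hr]
          have : (Quot.mk _ e : D.Comp) = Quot.mk _ (D.rev e) := Quot.sound (Or.inr rfl)
          rw [this])
        have hne : face d' ∈ {f | (Quot.mk _ (rep f) : D.Comp) = Quot.mk _ d'} := hr d'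
        rcases hA with hA | hA
        · rw [hA] at hne; exact hne.elim
        · have : face d ∈ {f | (Quot.mk _ (rep f) : D.Comp) = Quot.mk _ d'} := by rw [hA]; trivial
          rw [← hr d]; exact this
      intro a b
      induction a using Quot.ind with
      | mk d =>
        induction b using Quot.ind with
        | mk d' => exact key d d'
    have h1 : Nat.card (Σ e, Fin (D.len e)) = ∑ e, D.len e := by
      rw [Nat.card_eq_fintype_card, Fintype.card_sigma]
      simp
    have h2 : Nat.card (Σ e, Fin (D.len e + 1)) = ∑ e, (D.len e + 1) := by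
      rw [Nat.card_eq_fintype_card, Fintype.card_sigma]
      simp
    rw [hiso, hw, hc, h1, h2, Nat.card_eq_fintype_card]
    omega
  card_face := by
    have hiso : Nat.card D.Iso = 0 := by
      have : IsEmpty D.Iso := ⟨fun v => by
        obtain ⟨x, hx⟩ := niso v.1
        exact v.2 x hx⟩
      exact Nat.card_of_isEmpty
    have hw : Nat.card D.Walk = Nat.card F := by
      refine Nat.card_congr ⟨Quot.lift face (fun a b (h : D.next a = b) => by rw [← h, face_next]),
        fun f => wq D (rep f), ?_, ?_⟩
      · intro w
        induction w using Quot.ind with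
        | mk d => exact rep_face d
      · intro f
        exact face_rep f
    have hc : Nat.card D.Comp = 1 := by
      rw [Nat.card_eq_one_iff_unique]
      refine ⟨⟨?_⟩, ⟨Quot.mk _ d₀⟩⟩
      have key : ∀ d d' : D.Dart, (Quot.mk _ d : D.Comp) = Quot.mk _ d' := by
        intro d d'
        have hr : ∀ d : D.Dart, (Quot.mk _ (rep (face d)) : D.Comp) = Quot.mk _ d := by
          intro d
          have h := rep_face d
          have : ∀ w w' : D.Walk, w = w' →
              Quot.lift (fun d => (Quot.mk _ d : D.Comp)) (fun a b h => Quot.sound (Or.inl h)) w =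
              Quot.lift (fun d => (Quot.mk _ d : D.Comp)) (fun a b h => Quot.sound (Or.inl h)) w' := by
            rintro w _ rfl; rfl
          exact this _ _ h
        have hA := conn {f | (Quot.mk _ (rep f) : D.Comp) = Quot.mk _ d'} (by
          intro e
          show (Quot.mk _ (rep (face e)) : D.Comp) = _ ↔ (Quot.mk _ (rep (face (D.rev e))) : D.Comp) = _
          rw [hr, hr]
          have : (Quot.mk _ e : D.Comp) = Quot.mk _ (D.rev e) := Quot.sound (Or.inr rfl)
          rw [this])
        have hne : face d' ∈ {f | (Quot.mk _ (rep f) : D.Comp) = Quot.mk _ d'} := hr d'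
        rcases hA with hA | hA
        · rw [hA] at hne; exact hne.elim
        · have : face d ∈ {f | (Quot.mk _ (rep f) : D.Comp) = Quot.mk _ d'} := by rw [hA]; trivial
          rw [← hr d]; exact this
      intro a b
      induction a using Quot.ind with
      | mk d =>
        induction b using Quot.ind with
        | mk d' => exact key d d'
    rw [hiso, hw, hc]
  conn := conn

end Pool.Agent.H12.FP
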