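import Pool.Agent.H12.FP.Mk

/-!
# Three small drawings: 3 vertices and 3 edges, 4 vertices and 8 edges, 5 vertices and 15 edges
-/

set_option autoImplicit false

namespace Pool.Agent.H12.FP

open Pool.Agent.Q238.FP

theorem rot_vert_of {V X : Type} (rot : Equiv.Perm X) (vert : X → V) (can : V → X)
    (h1 : ∀ x, vert (rot x) = vert x) (h2 : ∀ x, ∃ m ∈ Finset.range 8, (rot^[m]) (can (vert x)) = x) :
    ∀ x y, rot.SameCycle x y ↔ vert x = vert y := by
  have h3 : ∀ (m : ℕ) x, vert ((rot ^ m) x) = vert x := by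
    intro m
    induction m with
    | zero => intro x; rfl
    | succ m ih => intro x; rw [pow_succ, Equiv.Perm.mul_apply, ih, h1]
  have h1' : ∀ x, vert (rot⁻¹ x) = vert x := by
    intro x
    have := h1 (rot⁻¹ x)
    rw [← Equiv.Perm.mul_apply, mul_inv_cancel, Equiv.Perm.one_apply] at this
    exact this.symm
  have h4 : ∀ (m : ℕ) x, vert (((rot⁻¹) ^ m) x) = vert x := by
    intro m
    induction m with
    | zero => intro x; rfl
    | succ m ih => intro x; rw [pow_succ, Equiv.Perm.mul_apply, ih, h1']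
  have h5 : ∀ x, rot.SameCycle (can (vert x)) x := by
    intro x
    obtain ⟨m, -, hm⟩ := h2 x
    exact ⟨m, by rw [zpow_natCast, ← Equiv.Perm.iterate_eq_pow]; exact hm⟩
  intro x y
  constructor
  · rintro ⟨n, rfl⟩
    cases n with
    | ofNat m => exact (h3 m x).symm
    | negSucc m =>
      rw [zpow_negSucc, ← inv_pow]
      exact (h4 (m + 1) x).symm
  · intro h
    have a := h5 x
    have b := h5 y
    rw [h] at a
    exact a.symm.trans b

theorem conn_of_rank {V E F : Type} (D : Data V E) (face : D.Dart → F) (f₀ : F) (pd : F → D.Dart)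
    (rk : F → ℕ) (h : ∀ f, f = f₀ ∨ (face (pd f) = f ∧ rk (face (D.rev (pd f))) < rk f)) :
    ∀ A : Set F, (∀ d, face d ∈ A ↔ face (D.rev d) ∈ A) → A = ∅ ∨ A = Set.univ := by
  intro A hA
  have key : ∀ n f, rk f ≤ n → (f ∈ A ↔ f₀ ∈ A) := by
    intro n
    induction n with
    | zero =>
      intro f hf
      rcases h f with rfl | ⟨-, h2⟩
      · rfl
      · omega
    | succ n ih =>
      intro f hf
      rcases h f with rfl | ⟨h1, h2⟩
      · rfl
      · have := hA (pd f)
        rw [h1] at this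
        exact this.trans (ih _ (by omega))
  by_cases h0 : f₀ ∈ A
  · right
    ext f
    simp [(key (rk f) f le_rfl).2 h0]
  · left
    ext f
    simp [mt (key (rk f) f le_rfl).1 h0]

theorem wq_iter {V E : Type} (D : Data V E) (m : ℕ) (d : D.Dart) :
    wq D (D.next^[m] d) = wq D d := by
  induction m generalizing d with
  | zero => rfl
  | succ m ih => rw [Function.iterate_succ_apply, ih, wq_next]

theorem rep_of {V E F : Type} (D : Data V E) (face : D.Dart → F) (rep : F → D.Dart)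
    (h : ∀ d, ∃ m ∈ Finset.range 8, D.next^[m] (rep (face d)) = d) :
    ∀ d, wq D (rep (face d)) = wq D d := by
  intro d
  obtain ⟨m, -, hm⟩ := h d
  calc wq D (rep (face d)) = wq D (D.next^[m] (rep (face d))) := (wq_iter D m _).symm
    _ = wq D d := by rw [hm]

/-! ### Three vertices -/

/-- a triangle -/
def D3 : Data (ZMod 3) (ZMod 3) where
  vert := fun x => if x.2 then x.1 + 1 else x.1
  len := fun _ => 0
  cr := fun x => x.2.elim0
  toLeft := fun x => x.2.elim0
  rot := ⟨fun x => if x.2 then (x.1 + 1, false) else (x.1 - 1, true),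
    fun x => if x.2 then (x.1 + 1, false) else (x.1 - 1, true), by decide, by decide⟩
  cr_cr := fun x => x.2.elim0
  toLeft_cr := fun x => x.2.elim0
  rot_vert := rot_vert_of _ _ (fun i => (i, false)) (by decide) (by decide)

/-- the drawing of a triangle -/
def G3 : Drawing (ZMod 3) (ZMod 3) Bool :=
  mk D3 (⟨0, 0⟩, true) (fun d => d.2) (fun _ => true)
    (by decide)
    (fun x => ⟨(D3.vert x, false), by revert x; decide, rfl⟩)
    (fun b => (⟨0, 0⟩, b)) (fun _ => rfl)
    (rep_of _ _ _ (by decide))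
    (conn_of_rank _ _ true (fun b => (⟨0, 0⟩, b)) (fun b => if b then 0 else 1) (by decide))
    (fun v => ⟨(v, false), rfl⟩)
    (by decide)

theorem props3 : G3.Loopless ∧ G3.Simple ∧ G3.FanPlanar ∧ G3.NonHomotopic := by
  refine ⟨?_, ⟨fun x => x.2.elim0, fun x => x.2.elim0⟩,
    fun e => Or.inl ⟨0, fun i => i.elim0⟩, ?_⟩
  · show ∀ e : ZMod 3, D3.vert (e, false) ≠ D3.vert (e, true)
    decide
  intro e e' hne hpar
  exfalso
  change ({e, e + 1} : Set (ZMod 3)) = {e', e' + 1} at hpar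
  rw [Set.pair_eq_pair_iff] at hpar
  revert hpar hne
  revert e e'
  decide

/-! ### Four vertices -/

/-- the end at `i` of the diagonal on the side `b` -/
def dg (b : Bool) (i : ZMod 4) : (ZMod 4 ⊕ (Bool × Bool)) × Bool :=
  match i with
  | ⟨0, _⟩ => (.inr (b, false), false)
  | ⟨1, _⟩ => (.inr (b, true), false)
  | ⟨2, _⟩ => (.inr (b, false), true)
  | ⟨3, _⟩ => (.inr (b, true), true)

/-- the ends -/
def vert4 (x : (ZMod 4 ⊕ (Bool × Bool)) × Bool) : ZMod 4 :=
  match x with
  | (.inl i, false) => i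
  | (.inl i, true) => i + 1
  | (.inr (_, c), false) => if c then 1 else 0
  | (.inr (_, c), true) => if c then 3 else 2

/-- the number of crossings -/
def len4 (e : ZMod 4 ⊕ (Bool × Bool)) : ℕ :=
  match e with
  | .inl _ => 0
  | .inr _ => 1

/-- the rotation -/
def rot4 (x : (ZMod 4 ⊕ (Bool × Bool)) × Bool) : (ZMod 4 ⊕ (Bool × Bool)) × Bool :=
  match x with
  | (.inl i, false) => dg false i
  | (.inl i, true) => dg true (i + 1)
  | (.inr (false, c), e) => (.inl (vert4 (.inr (false, c), e) - 1), true)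
  | (.inr (true, c), e) => (.inl (vert4 (.inr (true, c), e)), false)

/-- the inverse of the rotation -/
def rot4i (x : (ZMod 4 ⊕ (Bool × Bool)) × Bool) : (ZMod 4 ⊕ (Bool × Bool)) × Bool :=
  match x with
  | (.inl i, false) => dg true i
  | (.inl i, true) => dg false (i + 1)
  | (.inr (false, c), e) => (.inl (vert4 (.inr (false, c), e)), false)
  | (.inr (true, c), e) => (.inl (vert4 (.inr (true, c), e) - 1), true)

/-- a quadrilateral with its diagonals on both sides -/
def D4 : Data (ZMod 4) (ZMod 4 ⊕ (Bool × Bool)) where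
  vert := vert4
  len := len4
  cr := fun x => match x with
    | ⟨.inl _, j⟩ => j.elim0
    | ⟨.inr (b, c), _⟩ => ⟨.inr (b, !c), (0 : Fin 1)⟩
  toLeft := fun x => match x with
    | ⟨.inl _, j⟩ => j.elim0
    | ⟨.inr (b, c), _⟩ => b ^^ c
  rot := ⟨rot4, rot4i, by decide, by decide⟩
  cr_cr := by decide
  toLeft_cr := by decide
  rot_vert := rot_vert_of _ _ (fun i => (.inl i, false)) (by decide) (by decide)

/-- the faces -/
def face4 (d : D4.Dart) : ZMod 4 × Bool :=
  match d with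
  | (⟨.inl i, _⟩, dir) => (i, dir)
  | (⟨.inr (b, c), ⟨0, _⟩⟩, dir) =>
    ((if c then 1 else 0) + (if dir = b then -1 else 0), b)
  | (⟨.inr (b, c), ⟨_ + 1, _⟩⟩, dir) =>
    ((if c then 1 else 0) + (if dir = b then 2 else 1), b)

/-- a dart of a face -/
def rep4 (f : ZMod 4 × Bool) : D4.Dart := (⟨.inl f.1, (0 : Fin 1)⟩, f.2)

/-- the drawing -/
def G4 : Drawing (ZMod 4) (ZMod 4 ⊕ (Bool × Bool)) (ZMod 4 × Bool) :=
  mk D4 (rep4 (0, true)) face4 (fun i => (i, true))
    (by decide)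
    (fun x => ⟨(.inl (vert4 x), false), rfl, rfl⟩)
    rep4 (by decide)
    (rep_of _ _ _ (by decide))
    (conn_of_rank _ _ (0, true)
      (fun f => match f with
        | (i, false) => (⟨.inl i, (0 : Fin 1)⟩, false)
        | (⟨0, _⟩, true) => (⟨.inl 0, (0 : Fin 1)⟩, true)
        | (⟨1, _⟩, true) => (⟨.inr (true, true), (0 : Fin 2)⟩, false)
        | (⟨2, _⟩, true) => (⟨.inr (true, false), (1 : Fin 2)⟩, true)
        | (⟨3, _⟩, true) => (⟨.inr (true, false), (0 : Fin 2)⟩, true))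
      (fun f => match f with
        | (_, false) => 10
        | (⟨i, _⟩, true) => if i = 3 then 1 else i) (by decide))
    (fun v => ⟨(.inl v, false), rfl⟩)
    (by decide)

theorem nonHomotopic_of {V E F : Type} (G : Drawing V E F)
    (reg : E → E → F → Bool)
    (h : ∀ e e', e ≠ e' →
      (G.vert (e, false) = G.vert (e', false) ∧ G.vert (e, true) = G.vert (e', true) ∨
        G.vert (e, false) = G.vert (e', true) ∧ G.vert (e, true) = G.vert (e', false)) →
      (∀ d : G.Dart, (reg e e' (G.face d) = true ↔ reg e e' (G.face (G.rev d)) = true) ↔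
        d.1.1 ≠ e ∧ d.1.1 ≠ e') ∧
      (∃ v, v ≠ G.vert (e, false) ∧ v ≠ G.vert (e, true) ∧ reg e e' (G.loc v) = true) ∧
      ∃ v, v ≠ G.vert (e, false) ∧ v ≠ G.vert (e, true) ∧ ¬ reg e e' (G.loc v) = true) :
    G.NonHomotopic := by
  intro e e' hne hpar
  rw [Set.pair_eq_pair_iff] at hpar
  obtain ⟨h1, h2, h3⟩ := h e e' hne hpar
  exact ⟨{f | reg e e' f = true}, h1, h2, h3⟩

/-- the region of two parallel diagonals -/
def reg4 (e : ZMod 4 ⊕ (Bool × Bool)) (f : ZMod 4 × Bool) : Bool :=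
  match e with
  | .inl _ => false
  | .inr (_, false) => f.1 == 0 || f.1 == 1
  | .inr (_, true) => f.1 == 1 || f.1 == 2

/-- different parallel edges -/
def par4 (e e' : ZMod 4 ⊕ (Bool × Bool)) : Bool :=
  decide (e ≠ e' ∧
    (vert4 (e, false) = vert4 (e', false) ∧ vert4 (e, true) = vert4 (e', true) ∨
      vert4 (e, false) = vert4 (e', true) ∧ vert4 (e, true) = vert4 (e', false)))

theorem props4 : G4.Loopless ∧ G4.Simple ∧ G4.FanPlanar ∧ G4.NonHomotopic := by
  refine ⟨?_, ⟨?_, ?_⟩, ?_, nonHomotopic_of _ (fun e _ => reg4 e) ?_⟩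
  · show ∀ e : ZMod 4 ⊕ (Bool × Bool), vert4 (e, false) ≠ vert4 (e, true)
    decide
  · show ∀ (x : Σ e, Fin (len4 e)) (b b' : Bool), vert4 (x.1, b) ≠ vert4 ((D4.cr x).1, b')
    decide
  · show ∀ x y : Σ e, Fin (len4 e), x.1 = y.1 → (D4.cr x).1 = (D4.cr y).1 → x = y
    decide
  · show ∀ e, (∃ w, ∀ i : Fin (len4 e), D4.leftEnd ⟨e, i⟩ = w) ∨
      ∃ w, ∀ i : Fin (len4 e), D4.rightEnd ⟨e, i⟩ = w
    decide
  · have h1 : ∀ e e' : ZMod 4 ⊕ (Bool × Bool), par4 e e' = true →
      ∀ d : D4.Dart, (reg4 e (face4 d) = true ↔ reg4 e (face4 (D4.rev d)) = true) ↔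
        d.1.1 ≠ e ∧ d.1.1 ≠ e' := by
      decide +kernel
    have h2 : ∀ e e' : ZMod 4 ⊕ (Bool × Bool), par4 e e' = true →
      ∃ v : ZMod 4, v ≠ vert4 (e, false) ∧ v ≠ vert4 (e, true) ∧
        reg4 e (v, true) = true := by
      decide +kernel
    have h3 : ∀ e e' : ZMod 4 ⊕ (Bool × Bool), par4 e e' = true →
      ∃ v : ZMod 4, v ≠ vert4 (e, false) ∧ v ≠ vert4 (e, true) ∧
        ¬ reg4 e (v, true) = true := by
      decide +kernel
    exact fun e e' a b => have c := decide_eq_true (And.intro a b)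
      ⟨h1 e e' c, h2 e e' c, h3 e e' c⟩

/-! ### Five vertices -/

/-- the ends: `inl i` is the side from `i` to `i + 1`, `inr (i, b)` is the diagonal from `i - 1` to
`i + 1` on the side `b` -/
def vert5 (x : (ZMod 5 ⊕ (ZMod 5 × Bool)) × Bool) : ZMod 5 :=
  match x with
  | (.inl i, false) => i
  | (.inl i, true) => i + 1
  | (.inr (i, _), false) => i - 1
  | (.inr (i, _), true) => i + 1

/-- the number of crossings -/
def len5 (e : ZMod 5 ⊕ (ZMod 5 × Bool)) : ℕ :=
  match e with
  | .inl _ => 0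
  | .inr _ => 2

/-- the rotation -/
def rot5 (x : (ZMod 5 ⊕ (ZMod 5 × Bool)) × Bool) : (ZMod 5 ⊕ (ZMod 5 × Bool)) × Bool :=
  match x with
  | (.inl i, false) => (.inr (i + 1, false), false)
  | (.inr (i, false), false) => (.inr (i - 2, false), true)
  | (.inr (i, false), true) => (.inl i, true)
  | (.inl i, true) => (.inr (i, true), true)
  | (.inr (i, true), true) => (.inr (i + 2, true), false)
  | (.inr (i, true), false) => (.inl (i - 1), false)

/-- the inverse of the rotation -/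
def rot5i (x : (ZMod 5 ⊕ (ZMod 5 × Bool)) × Bool) : (ZMod 5 ⊕ (ZMod 5 × Bool)) × Bool :=
  match x with
  | (.inl i, false) => (.inr (i + 1, true), false)
  | (.inr (i, false), false) => (.inl (i - 1), false)
  | (.inr (i, false), true) => (.inr (i + 2, false), false)
  | (.inl i, true) => (.inr (i, false), true)
  | (.inr (i, true), true) => (.inl i, true)
  | (.inr (i, true), false) => (.inr (i - 2, true), true)

/-- a pentagon with its diagonals on both sides -/
def D5 : Data (ZMod 5) (ZMod 5 ⊕ (ZMod 5 × Bool)) where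
  vert := vert5
  len := len5
  cr := fun x => match x with
    | ⟨.inl _, j⟩ => j.elim0
    | ⟨.inr (i, b), ⟨0, _⟩⟩ => ⟨.inr (i - 1, b), (1 : Fin 2)⟩
    | ⟨.inr (i, b), ⟨_ + 1, _⟩⟩ => ⟨.inr (i + 1, b), (0 : Fin 2)⟩
  toLeft := fun x => match x with
    | ⟨.inl _, j⟩ => j.elim0
    | ⟨.inr (_, b), ⟨0, _⟩⟩ => !b
    | ⟨.inr (_, b), ⟨_ + 1, _⟩⟩ => b
  rot := ⟨rot5, rot5i, by decide, by decide⟩
  cr_cr := by decide
  toLeft_cr := by decide
  rot_vert := rot_vert_of _ _ (fun i => (.inl i, false)) (by decide) (by decide +kernel)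

/-- the faces -/
def face5 (d : D5.Dart) : (ZMod 5 × Bool × Bool) ⊕ Bool :=
  match d with
  | (⟨.inl i, _⟩, dir) => .inl (i, dir, false)
  | (⟨.inr (i, b), ⟨0, _⟩⟩, dir) => .inl (i - 1, b, dir == b)
  | (⟨.inr (i, b), ⟨1, _⟩⟩, dir) => if dir = b then .inr b else .inl (i, b, true)
  | (⟨.inr (i, b), ⟨_ + 2, _⟩⟩, dir) => if dir = b then .inl (i + 1, b, true) else .inl (i, b, false)

/-- a dart of a face -/
def rep5 (f : (ZMod 5 × Bool × Bool) ⊕ Bool) : D5.Dart :=
  match f with
  | .inl (i, b, false) => (⟨.inl i, (0 : Fin 1)⟩, b)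
  | .inl (i, b, true) => (⟨.inr (i, b), (1 : Fin 3)⟩, !b)
  | .inr b => (⟨.inr (0, b), (1 : Fin 3)⟩, b)

/-- the drawing -/
def G5 : Drawing (ZMod 5) (ZMod 5 ⊕ (ZMod 5 × Bool)) ((ZMod 5 × Bool × Bool) ⊕ Bool) :=
  mk D5 (rep5 (.inr true)) face5 (fun i => .inl (i, true, true))
    (by decide)
    (fun x => ⟨(.inr (vert5 x + 1, true), false), by
      show vert5 x + 1 - 1 = vert5 x
      ring, by
      show (Sum.inl (vert5 x + 1 - 1, true, true) : (ZMod 5 × Bool × Bool) ⊕ Bool) = _
      rw [add_sub_cancel_right]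
      rfl⟩)
    rep5 (by decide)
    (rep_of _ _ _ (by decide +kernel))
    (conn_of_rank _ _ (.inr true)
      (fun f => match f with
        | .inl (i, true, true) => (⟨.inr (i, true), (1 : Fin 3)⟩, false)
        | .inl (i, true, false) => (⟨.inr (i, true), (2 : Fin 3)⟩, false)
        | .inl (i, false, false) => (⟨.inl i, (0 : Fin 1)⟩, false)
        | .inl (i, false, true) => (⟨.inr (i + 1, false), (0 : Fin 3)⟩, false)
        | .inr b => (⟨.inr (0, b), (1 : Fin 3)⟩, b))
      (fun f => match f with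
        | .inl (_, true, true) => 1
        | .inl (_, true, false) => 2
        | .inl (_, false, false) => 3
        | .inl (_, false, true) => 4
        | .inr true => 0
        | .inr false => 5) (by decide))
    (fun v => ⟨(.inl v, false), rfl⟩)
    (by decide)

/-- the region of two parallel diagonals -/
def reg5 (e : ZMod 5 ⊕ (ZMod 5 × Bool)) (f : (ZMod 5 × Bool × Bool) ⊕ Bool) : Bool :=
  match e, f with
  | .inr (i, _), .inl (j, _, t) => j == i || (j == i - 1 && !t)
  | _, _ => false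

/-- different parallel edges -/
def par5 (e e' : ZMod 5 ⊕ (ZMod 5 × Bool)) : Bool :=
  decide (e ≠ e' ∧
    (vert5 (e, false) = vert5 (e', false) ∧ vert5 (e, true) = vert5 (e', true) ∨
      vert5 (e, false) = vert5 (e', true) ∧ vert5 (e, true) = vert5 (e', false)))

theorem props5 : G5.Loopless ∧ G5.Simple ∧ G5.FanPlanar ∧ G5.NonHomotopic := by
  refine ⟨?_, ⟨?_, ?_⟩, ?_, nonHomotopic_of _ (fun e _ => reg5 e) ?_⟩
  · show ∀ e : ZMod 5 ⊕ (ZMod 5 × Bool), vert5 (e, false) ≠ vert5 (e, true)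
    decide
  · show ∀ (x : Σ e, Fin (len5 e)) (b b' : Bool), vert5 (x.1, b) ≠ vert5 ((D5.cr x).1, b')
    decide
  · show ∀ x y : Σ e, Fin (len5 e), x.1 = y.1 → (D5.cr x).1 = (D5.cr y).1 → x = y
    decide +kernel
  · show ∀ e, (∃ w, ∀ i : Fin (len5 e), D5.leftEnd ⟨e, i⟩ = w) ∨
      ∃ w, ∀ i : Fin (len5 e), D5.rightEnd ⟨e, i⟩ = w
    decide +kernel
  · have h1 : ∀ e e' : ZMod 5 ⊕ (ZMod 5 × Bool), par5 e e' = true →
      ∀ d : D5.Dart, (reg5 e (face5 d) = true ↔ reg5 e (face5 (D5.rev d)) = true) ↔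
        d.1.1 ≠ e ∧ d.1.1 ≠ e' := by
      decide +kernel
    have h2 : ∀ e e' : ZMod 5 ⊕ (ZMod 5 × Bool), par5 e e' = true →
      ∃ v : ZMod 5, v ≠ vert5 (e, false) ∧ v ≠ vert5 (e, true) ∧
        reg5 e (.inl (v, true, true)) = true := by
      decide +kernel
    have h3 : ∀ e e' : ZMod 5 ⊕ (ZMod 5 × Bool), par5 e e' = true →
      ∃ v : ZMod 5, v ≠ vert5 (e, false) ∧ v ≠ vert5 (e, true) ∧
        ¬ reg5 e (.inl (v, true, true)) = true := by
      decide +kernel
    exact fun e e' a b => have c := decide_eq_true (And.intro a b)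
      ⟨h1 e e' c, h2 e e' c, h3 e e' c⟩

end Pool.Agent.H12.FP
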