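import Pool.Agent.H12.FP.Mk

/-!
# The upper bounds for three and for four vertices
-/

set_option autoImplicit false

namespace Pool.Agent.H12.FP

open Pool.Agent.Q238.FP

variable {V E F : Type} (G : Drawing V E F)

theorem Region.compl {e e' : E} {A : Set F} (h : G.Region e e' A) : G.Region e e' Aᶜ := by
  intro d
  rw [← h d, Set.mem_compl_iff, Set.mem_compl_iff, not_iff_not]

theorem Region.off {e e' : E} {A : Set F} (h : G.Region e e' A) {d : G.Dart} (h1 : d.1.1 ≠ e)
    (h2 : d.1.1 ≠ e') : G.face d ∈ A ↔ G.face (G.rev d) ∈ A := (h d).2 ⟨h1, h2⟩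

theorem Region.off_next {e e' : E} {A : Set F} (h : G.Region e e' A) {d : G.Dart}
    (h1 : d.1.1 ≠ e) (h2 : d.1.1 ≠ e') : G.face d ∈ A ↔ G.face (G.next (G.rev d)) ∈ A := by
  rw [G.face_next]
  exact Region.off G h h1 h2

/-- all faces around a vertex which is not on the curve -/
theorem around {g g' : E} {B : Set F} (hB : G.Region g g' B) {v : V}
    (hg : ∀ b, G.vert (g, b) ≠ v) (hg' : ∀ b, G.vert (g', b) ≠ v) (hv : G.loc v ∈ B)
    {y : E × Bool} (hy : G.vert y = v) : G.face (G.out y) ∈ B := by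
  have h1 : ∀ x, G.vert x = v → (G.face (G.out (G.rot x)) ∈ B ↔ G.face (G.out x) ∈ B) := by
    intro x hx
    rw [← G.next_rev_out, ← Region.off_next G hB]
    · rintro h
      change x.1 = g at h
      exact hg x.2 (by rw [← h]; exact hx)
    · rintro h
      change x.1 = g' at h
      exact hg' x.2 (by rw [← h]; exact hx)
  have h2 : ∀ (m : ℕ) x, G.vert x = v → (G.face (G.out ((G.rot ^ m) x)) ∈ B ↔
      G.face (G.out x) ∈ B) := by
    intro m
    induction m with
    | zero => intro x _; rfl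
    | succ m ih =>
      intro x hx
      rw [pow_succ, Equiv.Perm.mul_apply, ih _ (by rw [G.vert_rot]; exact hx), h1 x hx]
  obtain ⟨z, hz, hz'⟩ := G.face_loc y
  rw [hy] at hz hz'
  have h3 : G.face (G.out z) ∈ B := by rw [hz']; exact hv
  obtain ⟨n, hn⟩ := (G.rot_vert y z).2 (by rw [hy, hz])
  cases n with
  | ofNat m =>
    have hn' : (G.rot ^ m) y = z := by
      rw [← hn]; simp
    rw [← hn'] at h3
    exact (h2 m y hy).1 h3
  | negSucc m =>
    have hn' : (G.rot ^ (m + 1)) z = y := by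
      rw [← hn, zpow_negSucc]; simp
    rw [← hn']
    exact (h2 (m + 1) z hz).2 h3

/-- an edge without crossings with the curve -/
theorem inside (hs : G.Simple) {g g' e : E} {B : Set F} (hB : G.Region g g' B)
    (heg : e ≠ g) (heg' : e ≠ g')
    {a : V} (ha : ∃ b, G.vert (e, b) = a) (hga : ∃ b, G.vert (g, b) = a)
    (hga' : ∃ b, G.vert (g', b) = a)
    {v : V} (hv : ∃ b, G.vert (e, b) = v) (hg : ∀ b, G.vert (g, b) ≠ v)
    (hg' : ∀ b, G.vert (g', b) ≠ v) (hvB : G.loc v ∈ B) (d : G.Dart) (hd : d.1.1 = e) :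
    G.face d ∈ B := by
  obtain ⟨b, hb⟩ := hv
  obtain ⟨b1, hb1⟩ := ha
  obtain ⟨b2, hb2⟩ := hga
  obtain ⟨b3, hb3⟩ := hga'
  -- both ends
  have h0 : ∀ (i j : Fin (G.len e + 1)), (G.face (⟨e, i⟩, true) ∈ B ↔ G.face (⟨e, j⟩, true) ∈ B) := by
    have step : ∀ i : Fin (G.len e),
        (G.face (⟨e, i.castSucc⟩, true) ∈ B ↔ G.face (⟨e, i.succ⟩, true) ∈ B) := by
      intro i
      have h1 := G.straight ⟨e, i⟩ true
      have h2 : G.arr ⟨e, i⟩ true = (⟨e, i.castSucc⟩, true) := G.arr_true _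
      have h3 : G.leave ⟨e, i⟩ true = (⟨e, i.succ⟩, true) := G.leave_true _
      rw [← h2, ← h3, ← h1, ← Region.off_next G hB, G.face_next]
      · rw [G.next_arr, Data.ed_leave]
        intro h
        exact hs.1 ⟨e, i⟩ b1 b2 (by rw [h, hb1, hb2])
      · rw [G.next_arr, Data.ed_leave]
        intro h
        exact hs.1 ⟨e, i⟩ b1 b3 (by rw [h, hb1, hb3])
    have h00 : ∀ i : Fin (G.len e + 1), (G.face (⟨e, 0⟩, true) ∈ B ↔ G.face (⟨e, i⟩, true) ∈ B) := by
      intro i
      induction i using Fin.induction with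
      | zero => rfl
      | succ i ih => exact ih.trans (step i)
    intro i j
    exact (h00 i).symm.trans (h00 j)
  have h1 := around G hB hg hg' hvB hb
  have h2 : ∀ d : G.Dart, d.1.1 = e → (G.face d ∈ B ↔ G.face (⟨e, 0⟩, true) ∈ B) := by
    rintro ⟨⟨e1, i⟩, c⟩ he1
    change e1 = e at he1
    subst he1
    cases c
    · have := Region.off G hB (d := (⟨e1, i⟩, false)) heg heg'
      rw [this]
      exact h0 i 0
    · exact h0 i 0
  rw [h2 d hd, ← h2 (G.out (e, b)) rfl]
  exact h1

section fin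

variable [Fintype V] [Fintype E] [DecidableEq V]

/-- the ends of an edge -/
def ends (e : E) : Finset V := {G.vert (e, false), G.vert (e, true)}

omit [Fintype V] [Fintype E] in
theorem vert_mem (e : E) (b : Bool) : G.vert (e, b) ∈ ends G e := by
  cases b <;> simp [ends]

omit [Fintype V] [Fintype E] in
theorem mem_ends (e : E) (v : V) : v ∈ ends G e ↔ ∃ b, G.vert (e, b) = v := by
  simp only [ends, Finset.mem_insert, Finset.mem_singleton, Bool.exists_bool]
  constructor
  · rintro (h | h)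
    · exact Or.inl h.symm
    · exact Or.inr h.symm
  · rintro (h | h)
    · exact Or.inl h.symm
    · exact Or.inr h.symm

omit [Fintype V] [Fintype E] in
theorem card_ends (hl : G.Loopless) (e : E) : (ends G e).card = 2 :=
  Finset.card_pair (hl e)

omit [Fintype V] [Fintype E] in
theorem region_of (hh : G.NonHomotopic) {e e' : E} (hne : e ≠ e') (h : ends G e = ends G e') :
    ∃ A, G.Region e e' A ∧ (∃ v, v ∉ ends G e ∧ G.loc v ∈ A) ∧ ∃ v, v ∉ ends G e ∧ G.loc v ∉ A := by
  have h1 : ({G.vert (e, false), G.vert (e, true)} : Set V) =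
      {G.vert (e', false), G.vert (e', true)} := by
    have := congrArg (fun s : Finset V => (s : Set V)) h
    simpa [ends] using this
  obtain ⟨A, hA, ⟨v, h2, h3, h4⟩, w, h5, h6, h7⟩ := hh e e' hne h1
  exact ⟨A, hA, ⟨v, by simp [ends, h2, h3], h4⟩, w, by simp [ends, h5, h6], h7⟩

theorem card_three (hl : G.Loopless) (hh : G.NonHomotopic) (h3 : Fintype.card V = 3) :
    Fintype.card E ≤ 3 := by
  have hinj : Function.Injective (ends G) := by
    intro e e' h
    by_contra hne
    obtain ⟨A, hA, ⟨v, h2, h4⟩, w, h5, h7⟩ := region_of G hh hne h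
    have hvw : v ≠ w := by
      rintro rfl
      exact h7 h4
    have h6 : ({v, w} : Finset V) ∪ ends G e ⊆ Finset.univ := Finset.subset_univ _
    have h8 := Finset.card_le_card h6
    rw [Finset.card_union_of_disjoint, Finset.card_pair hvw, card_ends G hl, Finset.card_univ,
      h3] at h8
    · omega
    · rw [Finset.disjoint_left]
      intro x hx
      simp only [Finset.mem_insert, Finset.mem_singleton] at hx
      rcases hx with rfl | rfl
      · exact h2
      · exact h5
  have h1 : (Finset.univ.image (ends G)) ⊆ Finset.powersetCard 2 (Finset.univ : Finset V) := by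
    intro s hs
    rw [Finset.mem_image] at hs
    obtain ⟨e, -, rfl⟩ := hs
    rw [Finset.mem_powersetCard]
    exact ⟨Finset.subset_univ _, card_ends G hl e⟩
  have h2 := Finset.card_le_card h1
  rw [Finset.card_image_of_injective _ hinj, Finset.card_powersetCard, Finset.card_univ,
    Finset.card_univ, h3] at h2
  exact h2

omit [Fintype E] in
theorem sep (hl : G.Loopless) (hh : G.NonHomotopic) (h4 : Fintype.card V = 4) {e e' : E}
    (hne : e ≠ e') (h : ends G e = ends G e') :
    ∃ A, G.Region e e' A ∧ ∀ c d, c ≠ d → c ∉ ends G e → d ∉ ends G e →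
      G.loc c ∈ A ∧ G.loc d ∉ A ∨ G.loc c ∉ A ∧ G.loc d ∈ A := by
  obtain ⟨A, hA, ⟨v, h2, h4'⟩, w, h5, h7⟩ := region_of G hh hne h
  have hvw : v ≠ w := by
    rintro rfl
    exact h7 h4'
  have h6 : ({v, w} : Finset V) ⊆ (ends G e)ᶜ := by
    intro x hx
    simp only [Finset.mem_insert, Finset.mem_singleton] at hx
    rw [Finset.mem_compl]
    rcases hx with rfl | rfl
    · exact h2
    · exact h5
  have h8 : ({v, w} : Finset V) = (ends G e)ᶜ := by
    apply Finset.eq_of_subset_of_card_le h6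
    rw [Finset.card_compl, card_ends G hl, h4, Finset.card_pair hvw]
  refine ⟨A, hA, ?_⟩
  intro c d hcd hc hd
  rw [← Finset.mem_compl, ← h8] at hc hd
  simp only [Finset.mem_insert, Finset.mem_singleton] at hc hd
  rcases hc with rfl | rfl <;> rcases hd with rfl | rfl
  · exact absurd rfl hcd
  · exact Or.inl ⟨h4', h7⟩
  · exact Or.inr ⟨h7, h4'⟩
  · exact absurd rfl hcd

omit [Fintype V] [Fintype E] [DecidableEq V] in
theorem x13 (P Q R : Prop) : (P ↔ (Q ↔ R)) ↔ (¬ P ↔ (Q ↔ ¬ R)) := by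
  by_cases h1 : P <;> by_cases h2 : Q <;> by_cases h3 : R <;> simp [h1, h2, h3]

omit [Fintype V] [Fintype E] [DecidableEq V] in
theorem x12 (P Q R : Prop) : (P ↔ (Q ↔ R)) ↔ (¬ P ↔ (¬ Q ↔ R)) := by
  by_cases h1 : P <;> by_cases h2 : Q <;> by_cases h3 : R <;> simp [h1, h2, h3]

omit [Fintype V] [Fintype E] [DecidableEq V] in
theorem x23 (P Q R : Prop) : (P ↔ (Q ↔ R)) ↔ (P ↔ (¬ Q ↔ ¬ R)) := by
  by_cases h1 : P <;> by_cases h2 : Q <;> by_cases h3 : R <;> simp [h1, h2, h3]

theorem mult_le (hl : G.Loopless) (hh : G.NonHomotopic) (h4 : Fintype.card V = 4)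
    [DecidableEq E] (s : Finset V) : (Finset.univ.filter (fun e => ends G e = s)).card ≤ 2 := by
  by_contra hlt
  push Not at hlt
  rw [Finset.two_lt_card] at hlt
  obtain ⟨e1, m1, e2, m2, e3, m3, h12, h13, h23⟩ := hlt
  simp only [Finset.mem_filter, Finset.mem_univ, true_and] at m1 m2 m3
  obtain ⟨A, hA, hA'⟩ := sep G hl hh h4 h12 (m1.trans m2.symm)
  obtain ⟨B, hB, hB'⟩ := sep G hl hh h4 h23 (m2.trans m3.symm)
  obtain ⟨C, hC, hC'⟩ := sep G hl hh h4 h13 (m1.trans m3.symm)
  have hcard : 1 < ((ends G e1)ᶜ).card := by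
    rw [Finset.card_compl, card_ends G hl, h4]
    norm_num
  rw [Finset.one_lt_card] at hcard
  obtain ⟨c, hc, d, hd, hcd⟩ := hcard
  rw [Finset.mem_compl] at hc hd
  have hc2 : c ∉ ends G e2 := by rw [m2, ← m1]; exact hc
  have hd2 : d ∉ ends G e2 := by rw [m2, ← m1]; exact hd
  have a1 := hA' c d hcd hc hd
  have b1 := hB' c d hcd hc2 hd2
  have c1 := hC' c d hcd hc hd
  have key := G.conn {f | (f ∈ A ↔ (f ∈ B ↔ f ∈ C))} (by
    intro x
    have x1 := hA x
    have x2 := hB x
    have x3 := hC x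
    show (G.face x ∈ A ↔ (G.face x ∈ B ↔ G.face x ∈ C)) ↔
      (G.face (G.rev x) ∈ A ↔ (G.face (G.rev x) ∈ B ↔ G.face (G.rev x) ∈ C))
    by_cases y1 : x.1.1 = e1
    · have y2 : x.1.1 ≠ e2 := by rw [y1]; exact h12
      have y3 : x.1.1 ≠ e3 := by rw [y1]; exact h13
      have z1 := not_iff.1 (fun h => (x1.1 h).1 y1)
      have z2 := x2.2 ⟨y2, y3⟩
      have z3 := not_iff.1 (fun h => (x3.1 h).1 y1)
      rw [← z1, ← z2, ← z3]
      exact x13 _ _ _
    · by_cases y2 : x.1.1 = e2
      · have y3 : x.1.1 ≠ e3 := by rw [y2]; exact h23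
        have z1 := not_iff.1 (fun h => (x1.1 h).2 y2)
        have z2 := not_iff.1 (fun h => (x2.1 h).1 y2)
        have z3 := x3.2 ⟨y1, y3⟩
        rw [← z1, ← z2, ← z3]
        exact x12 _ _ _
      · by_cases y3 : x.1.1 = e3
        · have z1 := x1.2 ⟨y1, y2⟩
          have z2 := not_iff.1 (fun h => (x2.1 h).2 y3)
          have z3 := not_iff.1 (fun h => (x3.1 h).2 y3)
          rw [← z1, ← z2, ← z3]
          exact x23 _ _ _
        · rw [x1.2 ⟨y1, y2⟩, x2.2 ⟨y2, y3⟩, x3.2 ⟨y1, y3⟩])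
  have k1 : G.loc c ∈ {f | (f ∈ A ↔ (f ∈ B ↔ f ∈ C))} ↔
      ¬ (G.loc d ∈ {f | (f ∈ A ↔ (f ∈ B ↔ f ∈ C))}) := by
    show (G.loc c ∈ A ↔ (G.loc c ∈ B ↔ G.loc c ∈ C)) ↔
      ¬ (G.loc d ∈ A ↔ (G.loc d ∈ B ↔ G.loc d ∈ C))
    rcases a1 with a1 | a1 <;> rcases b1 with b1 | b1 <;> rcases c1 with c1 | c1 <;>
      simp [a1, b1, c1]
  rcases key with key | key
  · rw [key] at k1
    simp at k1
  · rw [key] at k1
    simp at k1

omit [Fintype E] in
theorem not_adj (hl : G.Loopless) (hs : G.Simple) (hh : G.NonHomotopic)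
    (h4 : Fintype.card V = 4) {e e' g g' : E} (he : e ≠ e') (hg : g ≠ g')
    (hee : ends G e = ends G e') (hgg : ends G g = ends G g') {a b c : V} (hab : a ≠ b)
    (hac : a ≠ c) (hbc : b ≠ c) (hE : ends G e = {a, b}) (hG : ends G g = {a, c}) : False := by
  obtain ⟨A, hA, hA'⟩ := sep G hl hh h4 he hee
  obtain ⟨B, hB, hB'⟩ := sep G hl hh h4 hg hgg
  have hcard : 0 < (({a, b, c} : Finset V)ᶜ).card := by
    rw [Finset.card_compl, h4]
    have := Finset.card_le_three (a := a) (b := b) (c := c)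
    omega
  obtain ⟨d, hd⟩ := Finset.card_pos.1 hcard
  simp only [Finset.mem_compl, Finset.mem_insert, Finset.mem_singleton, not_or] at hd
  obtain ⟨hda, hdb, hdc⟩ := hd
  have hcE : c ∉ ends G e := by rw [hE]; simp [hac.symm, hbc.symm]
  have hdE : d ∉ ends G e := by rw [hE]; simp [hda, hdb]
  have hbG : b ∉ ends G g := by rw [hG]; simp [hab.symm, hbc]
  have hdG : d ∉ ends G g := by rw [hG]; simp [hda, hdc]
  obtain ⟨A, hA, hcA, hdA⟩ : ∃ A, G.Region e e' A ∧ G.loc c ∈ A ∧ G.loc d ∉ A := by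
    rcases hA' c d (Ne.symm hdc) hcE hdE with ⟨h1, h2⟩ | ⟨h1, h2⟩
    · exact ⟨A, hA, h1, h2⟩
    · exact ⟨Aᶜ, Region.compl G hA, h1, fun h => h h2⟩
  obtain ⟨B, hB, hbB, hdB⟩ : ∃ B, G.Region g g' B ∧ G.loc b ∈ B ∧ G.loc d ∉ B := by
    rcases hB' b d (Ne.symm hdb) hbG hdG with ⟨h1, h2⟩ | ⟨h1, h2⟩
    · exact ⟨B, hB, h1, h2⟩
    · exact ⟨Bᶜ, Region.compl G hB, h1, fun h => h h2⟩
  have haE : a ∈ ends G e := by rw [hE]; simp
  have haE' : a ∈ ends G e' := by rw [← hee]; exact haE
  have haG : a ∈ ends G g := by rw [hG]; simp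
  have haG' : a ∈ ends G g' := by rw [← hgg]; exact haG
  have hbE : b ∈ ends G e := by rw [hE]; simp
  have hbE' : b ∈ ends G e' := by rw [← hee]; exact hbE
  have hcG : c ∈ ends G g := by rw [hG]; simp
  have hcG' : c ∈ ends G g' := by rw [← hgg]; exact hcG
  have nb : ∀ x, ends G x = ends G g → ∀ t, G.vert (x, t) ≠ b := by
    intro x hx t h
    exact hbG (by rw [← hx, mem_ends]; exact ⟨t, h⟩)
  have nc : ∀ x, ends G x = ends G e → ∀ t, G.vert (x, t) ≠ c := by
    intro x hx t h
    exact hcE (by rw [← hx, mem_ends]; exact ⟨t, h⟩)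
  have hneq : ∀ x y, ends G x = ends G e → ends G y = ends G g → x ≠ y := by
    rintro x y h1 h2 rfl
    rw [h1] at h2
    rw [h2] at hcE
    exact hcE hcG
  have inB : ∀ d : G.Dart, ends G d.1.1 = ends G e → G.face d ∈ B := by
    intro d hd
    refine inside G hs hB (hneq _ _ hd rfl) (hneq _ _ hd hgg.symm) (a := a) ?_
      ((mem_ends G _ _).1 haG) ((mem_ends G _ _).1 haG') (v := b) ?_ (nb g rfl) (nb g' hgg.symm)
      hbB d rfl
    · rw [← mem_ends, hd]; exact haE
    · rw [← mem_ends, hd]; exact hbE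
  have inA : ∀ d : G.Dart, ends G d.1.1 = ends G g → G.face d ∈ A := by
    intro d hd
    refine inside G hs hA (hneq _ _ rfl hd).symm (hneq _ _ hee.symm hd).symm (a := a) ?_
      ((mem_ends G _ _).1 haE) ((mem_ends G _ _).1 haE') (v := c) ?_ (nc e rfl) (nc e' hee.symm)
      hcA d rfl
    · rw [← mem_ends, hd]; exact haG
    · rw [← mem_ends, hd]; exact hcG
  have key := G.conn (A ∪ B) (by
    intro x
    have x1 := hA x
    have x2 := hB x
    rw [Set.mem_union, Set.mem_union]
    by_cases y1 : ends G x.1.1 = ends G e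
    · exact ⟨fun _ => Or.inr (inB (G.rev x) y1), fun _ => Or.inr (inB x y1)⟩
    · by_cases y2 : ends G x.1.1 = ends G g
      · exact ⟨fun _ => Or.inl (inA (G.rev x) y2), fun _ => Or.inl (inA x y2)⟩
      · have w1 : x.1.1 ≠ e := by rintro h; rw [h] at y1; exact y1 rfl
        have w2 : x.1.1 ≠ e' := by rintro h; rw [h] at y1; exact y1 hee.symm
        have w3 : x.1.1 ≠ g := by rintro h; rw [h] at y2; exact y2 rfl
        have w4 : x.1.1 ≠ g' := by rintro h; rw [h] at y2; exact y2 hgg.symm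
        rw [x1.2 ⟨w1, w2⟩, x2.2 ⟨w3, w4⟩])
  rcases key with key | key
  · have : G.loc c ∈ A ∪ B := Or.inl hcA
    rw [key] at this
    exact this
  · have : G.loc d ∈ A ∪ B := by rw [key]; trivial
    rcases this with h | h
    · exact hdA h
    · exact hdB h

theorem card_four (hl : G.Loopless) (hs : G.Simple) (hh : G.NonHomotopic)
    (h4 : Fintype.card V = 4) : Fintype.card E ≤ 8 := by
  classical
  let P : Finset (Finset V) := (Finset.powersetCard 2 (Finset.univ : Finset V)).filter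
    (fun s => 1 < (Finset.univ.filter (fun e => ends G e = s)).card)
  have hmaps : ∀ e ∈ (Finset.univ : Finset E), ends G e ∈ Finset.powersetCard 2 (Finset.univ : Finset V) := by
    intro e _
    rw [Finset.mem_powersetCard]
    exact ⟨Finset.subset_univ _, card_ends G hl e⟩
  have h1 := Finset.card_eq_sum_card_fiberwise hmaps
  rw [Finset.card_univ] at h1
  have h2 : ∑ s ∈ Finset.powersetCard 2 (Finset.univ : Finset V),
      (Finset.univ.filter (fun e => ends G e = s)).card ≤
      ∑ s ∈ Finset.powersetCard 2 (Finset.univ : Finset V),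
        (1 + if 1 < (Finset.univ.filter (fun e => ends G e = s)).card then 1 else 0) := by
    apply Finset.sum_le_sum
    intro s _
    have := mult_le G hl hh h4 s
    split_ifs <;> omega
  rw [Finset.sum_add_distrib, Finset.sum_const, Finset.card_powersetCard, Finset.card_univ, h4,
    ← Finset.card_filter] at h2
  have h3 : 2 * P.card ≤ 4 := by
    have hd : ∀ s ∈ P, ∀ t ∈ P, s ≠ t → Disjoint (id s) (id t) := by
      intro s hs' t ht hst
      simp only [P, Finset.mem_filter, Finset.mem_powersetCard] at hs' ht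
      obtain ⟨⟨-, hs1⟩, hs2⟩ := hs'
      obtain ⟨⟨-, ht1⟩, ht2⟩ := ht
      rw [Finset.one_lt_card] at hs2 ht2
      obtain ⟨e, he, e', he', hee⟩ := hs2
      obtain ⟨g, hg, g', hg', hgg⟩ := ht2
      simp only [Finset.mem_filter, Finset.mem_univ, true_and] at he he' hg hg'
      by_contra hnd
      rw [Finset.not_disjoint_iff] at hnd
      obtain ⟨a, has, hat⟩ := hnd
      simp only [id] at has hat
      have q1 : (s.erase a).card = 1 := by rw [Finset.card_erase_of_mem has, hs1]
      have q2 : (t.erase a).card = 1 := by rw [Finset.card_erase_of_mem hat, ht1]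
      rw [Finset.card_eq_one] at q1 q2
      obtain ⟨b, hb⟩ := q1
      obtain ⟨c, hc⟩ := q2
      have hs3 : s = {a, b} := by rw [← Finset.insert_erase has, hb]
      have ht3 : t = {a, c} := by rw [← Finset.insert_erase hat, hc]
      have hab : a ≠ b := by
        rintro rfl
        have : a ∈ s.erase a := by rw [hb]; simp
        simp at this
      have hac : a ≠ c := by
        rintro rfl
        have : a ∈ t.erase a := by rw [hc]; simp
        simp at this
      have hbc : b ≠ c := by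
        rintro rfl
        exact hst (hs3.trans ht3.symm)
      exact not_adj G hl hs hh h4 hee hgg (he.trans he'.symm) (hg.trans hg'.symm) hab hac hbc
        (he.trans hs3) (hg.trans ht3)
    have h5 := Finset.card_biUnion hd
    have h6 : ∑ s ∈ P, (id s).card = 2 * P.card := by
      rw [Finset.sum_const_nat (m := 2), mul_comm]
      intro s hs'
      simp only [P, Finset.mem_filter, Finset.mem_powersetCard] at hs'
      exact hs'.1.2
    have h7 := Finset.card_le_univ (P.biUnion id)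
    rw [h4, h5, h6] at h7
    exact h7
  have h8 : Nat.choose 4 2 = 6 := rfl
  rw [h8] at h2
  change _ ≤ 6 • 1 + P.card at h2
  simp only [smul_eq_mul] at h2
  omega

end fin

end Pool.Agent.H12.FP
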